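import Pool.Agent.J4H45.GT.Stm

/-!
# Cutting trees (helper45)
-/

set_option autoImplicit false

namespace Pool.Agent.J4H45.GT

variable {κ : Type} {Γ : κ → Type}

theorem within_mono (ℓ : κ → ℕ) : ∀ (T : GTree Γ) {h h' : ℕ}, h ≤ h' → T.Within ℓ h →
    T.Within ℓ h' := by
  intro T
  induction T with
  | answer o => intro h h' _ _; trivial
  | probe σ next ih =>
    intro h h' hh hT
    obtain ⟨h1, h2⟩ := hT
    exact ⟨h1.trans hh, fun v => ih v (Nat.sub_le_sub_right hh _) (h2 v)⟩

theorem cut_within (ℓ : κ → ℕ) : ∀ (T : GTree Γ) (h : ℕ), (T.cut ℓ h).Within ℓ h := by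
  intro T
  induction T with
  | answer o => intro h; trivial
  | probe σ next ih =>
    intro h
    unfold GTree.cut
    by_cases hh : ℓ σ ≤ h
    · rw [if_pos hh]
      exact ⟨hh, fun v => ih v _⟩
    · rw [if_neg hh]
      trivial

theorem cut_out (ℓ : κ → ℕ) (b : ∀ σ, Γ σ) : ∀ (T : GTree Γ) (h : ℕ), T.cost ℓ b ≤ h →
    (T.cut ℓ h).out b = T.out b := by
  intro T
  induction T with
  | answer o => intro h _; rfl
  | probe σ next ih =>
    intro h hh
    simp only [GTree.cost] at hh
    unfold GTree.cut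
    rw [if_pos (by omega : ℓ σ ≤ h)]
    simp only [GTree.out]
    exact ih (b σ) _ (by omega)

theorem within_cost (ℓ : κ → ℕ) (b : ∀ σ, Γ σ) : ∀ (T : GTree Γ) (h : ℕ), T.Within ℓ h →
    T.cost ℓ b ≤ h := by
  intro T
  induction T with
  | answer o => intro h _; simp [GTree.cost]
  | probe σ next ih =>
    intro h hh
    obtain ⟨h1, h2⟩ := hh
    simp only [GTree.cost]
    have := ih (b σ) _ (h2 (b σ))
    omega

end Pool.Agent.J4H45.GT
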