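import Pool.Agent.J4H45.GT.Cut

/-!
# (SER) the error of one data structure, summed over all pairs (helper45)
-/

set_option autoImplicit false

namespace Pool.Agent.J4H45.GT

open Pool.Agent.W959 Pool.Agent.W959.Ent Pool.Agent.TH457.EntD Pool.Agent.N631.LX
open Pool.Agent.N631.SX

open Classical in
/-- the answers with a group element -/
theorem dec_group (hDEC : S_DEC) {k v ρ : ℕ} (hρ : 1 ≤ ρ) (hρv : v ≤ ρ * ρ) (hv : 2 ≤ v)
    (z : ℕ) {G : Type} [AddCommGroup G] (a : G) :
    ∃ (c : Fin k → Fin k → G) (f g : (Fin k → Fin v → Bool) → G),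
      ∀ S T : Fin k → Fin v → Bool, (if ans2 ρ S T z then a else 0) =
        f S + g T + ∑ i, ∑ j, if meets S T i j then c i j else 0 := by
  rcases hDEC k v ρ hρ hρv hv z with ⟨i, j, h⟩ | ⟨P, h⟩ | ⟨P, h⟩
  · refine ⟨fun i' j' => if i' = i ∧ j' = j then a else 0, fun _ => 0, fun _ => 0,
      fun S T => ?_⟩
    rw [add_zero, zero_add, Finset.sum_eq_single i, Finset.sum_eq_single j]
    · simp only [and_self, if_true]
      by_cases h1 : ans2 ρ S T z
      · rw [if_pos h1, if_pos ((h S T).1 h1)]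
      · rw [if_neg h1, if_neg (fun h2 => h1 ((h S T).2 h2))]
    · intro j' _ hj'
      simp [hj']
    · intro h
      exact absurd (Finset.mem_univ _) h
    · intro i' _ hi'
      simp [hi']
    · intro h
      exact absurd (Finset.mem_univ _) h
  · refine ⟨fun _ _ => 0, fun S => if P S then a else 0, fun _ => 0, fun S T => ?_⟩
    simp only [ite_self, Finset.sum_const_zero, add_zero]
    by_cases h1 : ans2 ρ S T z
    · rw [if_pos h1, if_pos ((h S T).1 h1)]
    · rw [if_neg h1, if_neg (fun h2 => h1 ((h S T).2 h2))]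
  · refine ⟨fun _ _ => 0, fun _ => 0, fun T => if P T then a else 0, fun S T => ?_⟩
    simp only [ite_self, Finset.sum_const_zero, add_zero, zero_add]
    by_cases h1 : ans2 ρ S T z
    · rw [if_pos h1, if_pos ((h S T).1 h1)]
    · rw [if_neg h1, if_neg (fun h2 => h1 ((h S T).2 h2))]

open Classical in
theorem meets_group {k q n : ℕ} {G : Type} [AddCommGroup G] (i0 j0 : Fin k)
    (c : Fin k → Fin k → G) (x y : AA n k q) :
    (∑ i, ∑ j, if meets (setS i0 x) (setT j0 y) i j then c i j else 0) =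
      (∑ i, ∑ j, if zz i0 j0 x.2 y.2 i j = true then c i j else 0) +
        if conj x.1 y.1 = zero n then 0 else c i0 j0 := by
  have h1 : ∀ i j, (if meets (setS i0 x) (setT j0 y) i j then c i j else 0) =
      (if zz i0 j0 x.2 y.2 i j = true then c i j else 0) +
        (if i = i0 ∧ j = j0 then (if conj x.1 y.1 = zero n then 0 else c i0 j0) else 0) := by
    intro i j
    by_cases h : i = i0 ∧ j = j0
    · obtain ⟨rfl, rfl⟩ := h
      rw [zz_self]
      simp only [and_self, if_true, Bool.false_eq_true, if_false, zero_add]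
      by_cases hD : conj x.1 y.1 = zero n
      · rw [if_pos hD, if_neg]
        rw [meets_iff, zz_self]
        simp [hD]
      · rw [if_neg hD, if_pos]
        rw [meets_iff, zz_self]
        simp [hD]
    · rw [if_neg h, add_zero]
      by_cases hz : zz i0 j0 x.2 y.2 i j = true
      · have : meets (setS i0 x) (setT j0 y) i j := (meets_iff i0 j0 x y i j).2 (Or.inr hz)
        rw [if_pos this, if_pos hz]
      · have : ¬ meets (setS i0 x) (setT j0 y) i j := by
          rw [meets_iff]
          rintro (⟨h1, h2, -⟩ | h1)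
          · exact h ⟨h1, h2⟩
          · exact hz h1
        rw [if_neg this, if_neg hz]
  simp only [h1, Finset.sum_add_distrib]
  congr 1
  rw [Finset.sum_eq_single i0, Finset.sum_eq_single j0]
  · simp
  · intro j _ hj
    simp [hj]
  · intro h
    exact absurd (Finset.mem_univ _) h
  · intro i _ hi
    simp [hi]
  · intro h
    exact absurd (Finset.mem_univ _) h

theorem t_SER (hPAIR : S_PAIR) (hBAD : S_BAD) (hDEC : S_DEC) : S_SER := by
  classical
  intro N k q n m ρ h S κ _ Γ _ _ ℓ D ht hm hn hqt hρ hρv hv hN hcard hs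
  have hh1 : (1 : ℝ) ≤ h := by exact_mod_cast ht
  have hm' : (2 : ℝ) ≤ m := by
    have : 2 ≤ m := by omega
    exact_mod_cast this
  have hinv0 : 0 ≤ 1 / (m : ℝ) := by positivity
  have hr1 : 0 ≤ 1 - 1 / (m : ℝ) := by
    have : 1 / (m : ℝ) ≤ 1 := by
      rw [div_le_one (by linarith)]
      linarith
    linarith
  choose cz fz gz hz using fun (σ : κ) (z : ℕ) =>
    dec_group hDEC (k := k) hρ hρv hv z (D.a σ z)
  let C : ∀ σ, Fin k → Fin k → Γ σ := fun σ i j => ∑ z ∈ D.Q σ, cz σ z i j
  let F : Finset κ := Finset.univ.filter fun σ => (D.Q σ).Nonempty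
  have hF : ∀ σ, σ ∉ F → ∀ i j, C σ i j = 0 := by
    intro σ hσ i j
    have h1 : D.Q σ = ∅ := by
      by_contra hne
      exact hσ (Finset.mem_filter.2 ⟨Finset.mem_univ _, Finset.nonempty_iff_ne_empty.2 hne⟩)
    simp only [C, h1, Finset.sum_empty]
  have hsum : (∑ σ ∈ F, ℓ σ : ℕ) ≤ S := by
    refine le_trans (le_of_eq ?_) hs
    unfold GroupDS.space
    simp only [F]
  let G : Finset (Fin k × Fin k) := Finset.univ.filter fun p =>
    ¬ Good C (128 * ((h : ℝ) + 12)) (1 / 20000) p.1 p.2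
  have hG := hBAD k κ Γ ℓ C F (128 * ((h : ℝ) + 12)) (1 / 20000) G hcard hF (by positivity)
    (by norm_num) (by norm_num) fun p hp => (Finset.mem_filter.1 hp).2
  have hG' : (G.card : ℝ) ≤ 1 + 10 ^ 18 * (h : ℝ) ^ 2 * S := by
    refine hG.trans ?_
    have h1 : ((∑ σ ∈ F, ℓ σ : ℕ) : ℝ) ≤ S := by exact_mod_cast hsum
    have h2 : (128 * ((h : ℝ) + 12) + 1) ≤ 1665 * h := by linarith
    have h3 : (128 * ((h : ℝ) + 12) + 1) ^ 2 ≤ (1665 * h) ^ 2 :=
      pow_le_pow_left₀ (by positivity) h2 2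
    have h4 : 384 * (128 * ((h : ℝ) + 12) + 1) ^ 2 * ((∑ σ ∈ F, ℓ σ : ℕ) : ℝ) ≤
        384 * (1665 * h) ^ 2 * S := by
      apply mul_le_mul _ h1 (by positivity) (by positivity)
      linarith
    have h5 : 384 * (128 * ((h : ℝ) + 12) + 1) ^ 2 * ((∑ σ ∈ F, ℓ σ : ℕ) : ℝ) /
        (1 / 20000) ^ 2 = 384 * (128 * ((h : ℝ) + 12) + 1) ^ 2 *
          ((∑ σ ∈ F, ℓ σ : ℕ) : ℝ) * 400000000 := by
      rw [show ((1 : ℝ) / 20000) ^ 2 = 1 / 400000000 by norm_num, div_div_eq_mul_div, div_one]
    rw [h5]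
    have h6 : (0 : ℝ) ≤ (h : ℝ) ^ 2 * S := by positivity
    nlinarith
  have herr : ∀ p : Fin k × Fin k, p ∉ G → (1 / 80 : ℝ) ≤
      EE (q := q) (1 / (m : ℝ)) (fun x y => ind (¬ (((D.query (pos2 n q k ρ p)).cut ℓ h).out
        (D.cell (arrA2 N ρ p.1 x) (arrB2 N ρ p.2 y)) = true ↔
          ¬ conj x.1 y.1 = zero n))) := by
    intro p hp
    let f : ∀ σ, AA n k q → Γ σ := fun σ x =>
      D.f σ (arrA2 N ρ p.1 x) + ∑ z ∈ D.Q σ, fz σ z (setS p.1 x)
    let g : ∀ σ, AA n k q → Γ σ := fun σ y =>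
      D.g σ (arrB2 N ρ p.2 y) + ∑ z ∈ D.Q σ, gz σ z (setT p.2 y)
    have hcell : ∀ (x y : AA n k q), D.cell (arrA2 N ρ p.1 x) (arrB2 N ρ p.2 y) =
        fun σ => vval C f g p.1 p.2 x y σ := by
      intro x y
      funext σ
      unfold GroupDS.cell
      rw [Finset.sum_filter]
      have h1 : ∀ z, (if (∃ i j : Fin N, arrA2 N ρ p.1 x i + arrB2 N ρ p.2 y j = z)
          then D.a σ z else 0) = fz σ z (setS p.1 x) + gz σ z (setT p.2 y) +
          ((∑ i, ∑ j, if zz p.1 p.2 x.2 y.2 i j = true then cz σ z i j else 0) +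
            if conj x.1 y.1 = zero n then 0 else cz σ z p.1 p.2) := by
        intro z
        rw [← meets_group, ← hz σ z]
        by_cases h2 : ∃ i j : Fin N, arrA2 N ρ p.1 x i + arrB2 N ρ p.2 y j = z
        · rw [if_pos h2, if_pos ((arr2_iff hρ hN _ _ _ _ z).1 h2)]
        · rw [if_neg h2, if_neg (fun h3 => h2 ((arr2_iff hρ hN _ _ _ _ z).2 h3))]
      rw [Finset.sum_congr rfl fun z _ => h1 z]
      simp only [Finset.sum_add_distrib]
      have h2 : ∑ z ∈ D.Q σ, ∑ i, ∑ j,
          (if zz p.1 p.2 x.2 y.2 i j = true then cz σ z i j else 0) =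
          ∑ i, ∑ j, if zz p.1 p.2 x.2 y.2 i j = true then C σ i j else 0 := by
        rw [Finset.sum_comm]
        refine Finset.sum_congr rfl fun i _ => ?_
        rw [Finset.sum_comm]
        refine Finset.sum_congr rfl fun j _ => ?_
        by_cases hzz : zz p.1 p.2 x.2 y.2 i j = true
        · simp only [hzz, if_true]
          rfl
        · simp only [hzz, if_false, Finset.sum_const_zero]
          simp
      have h3 : ∑ z ∈ D.Q σ, (if conj x.1 y.1 = zero n then 0 else cz σ z p.1 p.2) =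
          if conj x.1 y.1 = zero n then 0 else C σ p.1 p.2 := by
        by_cases hD : conj x.1 y.1 = zero n
        · simp [hD]
        · simp only [hD, if_false]
          rfl
      rw [h2, h3]
      unfold vval zval
      simp only [f, g]
      abel
    have hgood : Good C (128 * ((h : ℝ) + 12)) (1 / 20000) p.1 p.2 := by
      by_contra hb
      exact hp (Finset.mem_filter.2 ⟨Finset.mem_univ _, hb⟩)
    have h1 := hPAIR k q n m h κ Γ ℓ C f g p.1 p.2 ((D.query (pos2 n q k ρ p)).cut ℓ h) ht hm hn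
      hqt hcard (cut_within ℓ _ h) hgood
    simp only [hcell]
    exact h1
  calc ((k : ℝ) ^ 2 - (1 + 10 ^ 18 * (h : ℝ) ^ 2 * S)) * (1 / 80) ≤
        ((k : ℝ) ^ 2 - G.card) * (1 / 80) := by
        apply mul_le_mul_of_nonneg_right _ (by norm_num)
        linarith
    _ = ∑ p : Fin k × Fin k, if p ∈ G then (0 : ℝ) else 1 / 80 := by
        rw [Finset.sum_ite]
        have h1 : Finset.univ.filter (fun p => ¬ p ∈ G) = Gᶜ := by
          ext p
          simp
        rw [h1, Finset.sum_const_zero, zero_add, Finset.sum_const, Finset.card_compl,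
          nsmul_eq_mul, Fintype.card_prod, Fintype.card_fin]
        rw [Nat.cast_sub (by
          have := Finset.card_le_univ G
          simpa using this)]
        push_cast
        ring
    _ ≤ _ := by
        refine Finset.sum_le_sum fun p _ => ?_
        by_cases hp : p ∈ G
        · rw [if_pos hp]
          exact EE_nonneg hinv0 hr1 fun x y => ind_nonneg _
        · rw [if_neg hp]
          exact herr p hp

end Pool.Agent.J4H45.GT
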