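import Pool.Agent.J4H45.GT.StmE
import Pool.Agent.J4H45.GT.Ser

/-!
# (ESE) the error of one data structure for emptiness queries (helper45)
-/

set_option autoImplicit false

namespace Pool.Agent.J4H45.GT

open Pool.Agent.W959 Pool.Agent.W959.Ent Pool.Agent.TH457.EntD Pool.Agent.N631.LX
open Pool.Agent.N631.SX

theorem t_ESE (hPAIR : S_PAIR) (hBAD : S_BAD) : S_ESE := by
  classical
  intro k q n m h S κ _ Γ _ _ ℓ D ht hm hn hqt hcard hs
  have hh1 : (1 : ℝ) ≤ h := by exact_mod_cast ht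
  have hm' : (2 : ℝ) ≤ m := by
    have : 2 ≤ m := by omega
    exact_mod_cast this
  have hinv0 : 0 ≤ 1 / (m : ℝ) := by positivity
  have hr1 : 0 ≤ 1 - 1 / (m : ℝ) := by
    have : 1 / (m : ℝ) ≤ 1 := by
      rw [div_le_one (by linarith)]
      linarith
    linarith
  let C : ∀ σ, Fin k → Fin k → Γ σ := fun σ i j => if (i, j) ∈ D.P σ then D.a σ (i, j) else 0
  let F : Finset κ := Finset.univ.filter fun σ => (D.P σ).Nonempty
  have hF : ∀ σ, σ ∉ F → ∀ i j, C σ i j = 0 := by
    intro σ hσ i j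
    have h1 : D.P σ = ∅ := by
      by_contra hne
      exact hσ (Finset.mem_filter.2 ⟨Finset.mem_univ _, Finset.nonempty_iff_ne_empty.2 hne⟩)
    simp [C, h1]
  have hsum : (∑ σ ∈ F, ℓ σ : ℕ) ≤ S := by
    refine le_trans (le_of_eq ?_) hs
    unfold EGroupDS.space
    simp only [F]
  let G : Finset (Fin k × Fin k) := Finset.univ.filter fun p =>
    ¬ Good C (128 * ((h : ℝ) + 12)) (1 / 20000) p.1 p.2
  have hG := hBAD k κ Γ ℓ C F (128 * ((h : ℝ) + 12)) (1 / 20000) G hcard hF (by positivity)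
    (by norm_num) (by norm_num) fun p hp => (Finset.mem_filter.1 hp).2
  have hG' : (G.card : ℝ) ≤ 1 + 10 ^ 18 * (h : ℝ) ^ 2 * S := by
    refine hG.trans ?_
    have h1 : ((∑ σ ∈ F, ℓ σ : ℕ) : ℝ) ≤ S := by exact_mod_cast hsum
    have h2 : (128 * ((h : ℝ) + 12) + 1) ≤ 1665 * h := by linarith
    have h3 : (128 * ((h : ℝ) + 12) + 1) ^ 2 ≤ (1665 * h) ^ 2 :=
      pow_le_pow_left₀ (by positivity) h2 2
    have h4 : 384 * (128 * ((h : ℝ) + 12) + 1) ^ 2 * ((∑ σ ∈ F, ℓ σ : ℕ) : ℝ) ≤
        384 * (1665 * h) ^ 2 * S := by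
      apply mul_le_mul _ h1 (by positivity) (by positivity)
      linarith
    have h5 : 384 * (128 * ((h : ℝ) + 12) + 1) ^ 2 * ((∑ σ ∈ F, ℓ σ : ℕ) : ℝ) /
        (1 / 20000) ^ 2 = 384 * (128 * ((h : ℝ) + 12) + 1) ^ 2 *
          ((∑ σ ∈ F, ℓ σ : ℕ) : ℝ) * 400000000 := by
      rw [show ((1 : ℝ) / 20000) ^ 2 = 1 / 400000000 by norm_num, div_div_eq_mul_div, div_one]
    rw [h5]
    have h6 : (0 : ℝ) ≤ (h : ℝ) ^ 2 * S := by positivity
    nlinarith
  have herr : ∀ p : Fin k × Fin k, p ∉ G → (1 / 80 : ℝ) ≤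
      EE (q := q) (1 / (m : ℝ)) (fun x y => ind (¬ (((D.query p.1 p.2).cut ℓ h).out
        (D.cell (famX p.1 x) (famY p.2 y)) = true ↔ ¬ conj x.1 y.1 = zero n))) := by
    intro p hp
    let f : ∀ σ, AA n k q → Γ σ := fun σ x => D.f σ (famX p.1 x)
    let g : ∀ σ, AA n k q → Γ σ := fun σ y => D.g σ (famY p.2 y)
    have hcell : ∀ (x y : AA n k q), D.cell (famX p.1 x) (famY p.2 y) =
        fun σ => vval C f g p.1 p.2 x y σ := by
      intro x y
      funext σ
      unfold EGroupDS.cell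
      have h1 : ∑ z ∈ D.P σ with (famX p.1 x z.1 ∩ famY p.2 y z.2).Nonempty, D.a σ z =
          ∑ i, ∑ j, if meets (setS p.1 x) (setT p.2 y) i j then C σ i j else 0 := by
        rw [← Fintype.sum_prod_type' (f := fun i j =>
          if meets (setS p.1 x) (setT p.2 y) i j then C σ i j else 0), Finset.sum_filter]
        rw [← Finset.sum_subset (Finset.subset_univ (D.P σ))]
        · refine Finset.sum_congr rfl fun z hz => ?_
          simp only [C, Prod.mk.eta, hz, if_true]
          by_cases h2 : (famX p.1 x z.1 ∩ famY p.2 y z.2).Nonempty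
          · rw [if_pos h2, if_pos ((fam_meets _ _ _ _ _ _).1 h2)]
          · rw [if_neg h2, if_neg (fun h3 => h2 ((fam_meets _ _ _ _ _ _).2 h3))]
        · intro z _ hz
          simp [C, hz]
      rw [h1, meets_group]
      unfold vval zval
      simp only [f, g]
      abel
    have hgood : Good C (128 * ((h : ℝ) + 12)) (1 / 20000) p.1 p.2 := by
      by_contra hb
      exact hp (Finset.mem_filter.2 ⟨Finset.mem_univ _, hb⟩)
    have h1 := hPAIR k q n m h κ Γ ℓ C f g p.1 p.2 ((D.query p.1 p.2).cut ℓ h) ht hm hn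
      hqt hcard (cut_within ℓ _ h) hgood
    simp only [hcell]
    exact h1
  calc ((k : ℝ) ^ 2 - (1 + 10 ^ 18 * (h : ℝ) ^ 2 * S)) * (1 / 80) ≤
        ((k : ℝ) ^ 2 - G.card) * (1 / 80) := by
        apply mul_le_mul_of_nonneg_right _ (by norm_num)
        linarith
    _ = ∑ p : Fin k × Fin k, if p ∈ G then (0 : ℝ) else 1 / 80 := by
        rw [Finset.sum_ite]
        have h1 : Finset.univ.filter (fun p => ¬ p ∈ G) = Gᶜ := by
          ext p
          simp
        rw [h1, Finset.sum_const_zero, zero_add, Finset.sum_const, Finset.card_compl,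
          nsmul_eq_mul, Fintype.card_prod, Fintype.card_fin]
        rw [Nat.cast_sub (by
          have := Finset.card_le_univ G
          simpa using this)]
        push_cast
        ring
    _ ≤ _ := by
        refine Finset.sum_le_sum fun p _ => ?_
        by_cases hp : p ∈ G
        · rw [if_pos hp]
          exact EE_nonneg hinv0 hr1 fun x y => ind_nonneg _
        · rw [if_neg hp]
          exact herr p hp

end Pool.Agent.J4H45.GT
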