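import Pool.Agent.J4H45.GT.StmE
import Pool.Agent.J4H4.GT.Sim

/-! # (ESM) cells made from a group element and from a protocol, emptiness queries
(copy of J4H4.GT.Sim) -/

set_option autoImplicit false

namespace Pool.Agent.J4H45.GT

open Pool.Agent.N631.SX Pool.Agent.J4H4.GT

variable {c d k u : ℕ} {Γ : Fin c → Type} {Δ : Type}

/-- the structure of the simulation -/
noncomputable def simE [∀ σ, AddCommGroup (Γ σ)] (D : ESketchDS k u c d Γ Δ) :
    EGroupDS k u (GG d Γ) where
  P := fun
    | Sum.inl σ => D.P σ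
    | Sum.inr _ => ∅
  a := fun
    | Sum.inl σ => D.a σ
    | Sum.inr _ => fun _ => (0 : ZMod 2)
  f := fun
    | Sum.inl σ => D.f σ
    | Sum.inr p => fun A => bv ((D.talk p.1).turn p.2.1 && (D.talk p.1).fst p.2.1 A)
  g := fun
    | Sum.inl σ => D.g σ
    | Sum.inr p => fun B => bv (!(D.talk p.1).turn p.2.1 && (D.talk p.1).snd p.2.1 B)
  query := fun i j => sim D.make (D.query i j)

open Classical in
theorem cellE_inl [∀ σ, AddCommGroup (Γ σ)] (D : ESketchDS k u c d Γ Δ)
    (X Y : Fin k → Finset (Fin u)) (σ : Fin c) :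
    (simE D).cell X Y (Sum.inl σ) =
      (∑ p ∈ D.P σ with (X p.1 ∩ Y p.2).Nonempty, D.a σ p) + D.f σ X + D.g σ Y := rfl

theorem cellE_inr [∀ σ, AddCommGroup (Γ σ)] (D : ESketchDS k u c d Γ Δ)
    (X Y : Fin k → Finset (Fin u)) (σ : Fin c)
    (h : Nd d) : vb ((simE D).cell X Y (Sum.inr (σ, h))) = (D.talk σ).next X Y h.1 := by
  classical
  have e : (simE D).cell X Y (Sum.inr (σ, h)) =
      (∑ p ∈ (∅ : Finset (Fin k × Fin k)) with (X p.1 ∩ Y p.2).Nonempty, (0 : ZMod 2)) +
        bv ((D.talk σ).turn h.1 && (D.talk σ).fst h.1 X) +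
        bv (!(D.talk σ).turn h.1 && (D.talk σ).snd h.1 Y) := rfl
  rw [e]
  unfold Talk.next
  simp only [Finset.filter_empty, Finset.sum_empty, zero_add]
  cases (D.talk σ).turn h.1 <;> cases (D.talk σ).fst h.1 X <;> cases (D.talk σ).snd h.1 Y <;>
    simp [vb, bv]

theorem t_ESM : S_ESM := by
  classical
  intro hM N r d t δ hr ht hδ hδ2
  obtain ⟨k, u, hk, hu, hM⟩ := hM N ((r + d) * t) δ (Nat.one_le_iff_ne_zero.2 (by positivity)) hδ hδ2
  refine ⟨k, u, hk, ?_, ?_⟩
  · push_cast at hu
    exact hu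
  intro c s Γ _ _ Δ Ω _ p D hc hs hD
  obtain ⟨hp, hp1, hcor⟩ := hD
  have h := hM (r * s) (KK c d) (GG d Γ) (ll c d r) Ω p (fun ω => simE (D ω))
    (by
      intro τ
      cases τ with
      | inl σ => exact hc σ
      | inr _ =>
        show Fintype.card (ZMod 2) ≤ 2 ^ 1
        rw [ZMod.card]
        norm_num)
    (by
      intro ω
      refine le_trans ?_ (Nat.mul_le_mul_left r (hs ω))
      unfold EGroupDS.space ESketchDS.space
      have h1 : (Finset.univ.filter fun τ : KK c d => ((simE (D ω)).P τ).Nonempty) ⊆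
          (Finset.univ.filter fun σ : Fin c => ((D ω).P σ).Nonempty).image Sum.inl := by
        intro τ hτ
        rw [Finset.mem_filter] at hτ
        cases τ with
        | inl σ => exact Finset.mem_image.2 ⟨σ, Finset.mem_filter.2 ⟨Finset.mem_univ _, hτ.2⟩, rfl⟩
        | inr p =>
          exfalso
          have : (∅ : Finset (Fin k × Fin k)).Nonempty := hτ.2
          simp at this
      refine (Finset.sum_le_sum_of_subset h1).trans ?_
      rw [Finset.sum_image (fun a _ b _ hab => Sum.inl_injective hab)]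
      show ∑ σ ∈ (Finset.univ.filter fun σ : Fin c => ((D ω).P σ).Nonempty), r ≤ _
      rw [Finset.sum_const, smul_eq_mul, mul_comm])
    ⟨hp, hp1, by
      intro X Y hXY i j
      refine (hcor X Y hXY i j).trans ?_
      refine Finset.sum_le_sum_of_subset_of_nonneg ?_ fun ω _ _ => hp ω
      intro ω hω
      rw [Finset.mem_filter] at hω ⊢
      have e1 := sim_out (D ω).talk X Y ((simE (D ω)).cell X Y) (D ω).make
        (fun σ => (∑ p ∈ (D ω).P σ with (X p.1 ∩ Y p.2).Nonempty, (D ω).a σ p) + (D ω).f σ X +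
          (D ω).g σ Y) (fun σ => cellE_inl (D ω) X Y σ) (fun σ h => cellE_inr (D ω) X Y σ h)
        ((D ω).query i j)
      have e2 := sim_cost (D ω).talk X Y ((simE (D ω)).cell X Y) (D ω).make
        (fun σ => (∑ p ∈ (D ω).P σ with (X p.1 ∩ Y p.2).Nonempty, (D ω).a σ p) + (D ω).f σ X +
          (D ω).g σ Y) r (fun σ => cellE_inl (D ω) X Y σ) (fun σ h => cellE_inr (D ω) X Y σ h)
        ((D ω).query i j)
      refine ⟨Finset.mem_univ _, ?_, ?_⟩
      · show (sim (D ω).make ((D ω).query i j)).out ((simE (D ω)).cell X Y) = true ↔ _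
        rw [e1]
        exact hω.2.1
      · show (sim (D ω).make ((D ω).query i j)).cost (ll c d r) ((simE (D ω)).cell X Y) ≤ _
        rw [e2]
        exact Nat.mul_le_mul_left _ hω.2.2⟩
  push_cast at h
  exact h

end Pool.Agent.J4H45.GT
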