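import Pool.Agent.J4H45.GT.Main
import Pool.Agent.J4H45.GT.Ese
import Pool.Agent.J4H45.GT.Eam
import Pool.Agent.J4H45.GT.Esm
import Pool.Agent.J4H45.GT.Emn

/-!
# Tables over finite abelian groups for emptiness queries: assembly (helper45)
-/

set_option autoImplicit false

namespace Pool.Agent.J4H45.GT

theorem efin : S_EFI := t_ESM (t_EMD (t_EMN (t_ESE pair bad)) t_EAM)

end Pool.Agent.J4H45.GT
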