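import Pool.Agent.J4H45.GT.Main

/-!
# Integer sketches (helper45)
-/

set_option autoImplicit false

namespace Pool.Agent.J4H45.GT

open Pool.Agent.N631.SX

open Classical in
/-- the group element of the cell `σ` -/
noncomputable def SketchDS.sketch {n c d : ℕ} {Γ : Fin c → Type} [∀ σ, AddCommGroup (Γ σ)]
    {Δ : Type} (D : SketchDS n c d Γ Δ) (A B : Fin n → ℕ) (σ : Fin c) : Γ σ :=
  (∑ z ∈ D.Q σ with ∃ i j, A i + B j = z, D.a σ z) + D.f σ A + D.g σ B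

/-- the data structure modulo `M` -/
noncomputable def modDS {n c d : ℕ} {Δ : Type} (M : ℕ) (D : SketchDS n c d (fun _ => ℤ) Δ) :
    SketchDS n c d (fun _ => ZMod M) Δ where
  Q := D.Q
  a := fun σ z => ((D.a σ z : ℤ) : ZMod M)
  f := fun σ A => ((D.f σ A : ℤ) : ZMod M)
  g := fun σ B => ((D.g σ B : ℤ) : ZMod M)
  talk := D.talk
  make := fun σ x l => D.make σ ((x.val : ℕ) : ℤ) l
  query := D.query

theorem modDS_cell {n c d : ℕ} {Δ : Type} (M : ℕ) [NeZero M] (D : SketchDS n c d (fun _ => ℤ) Δ)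
    (A B : Fin n → ℕ) (σ : Fin c) (h0 : 0 ≤ D.sketch A B σ) (h1 : D.sketch A B σ < M) :
    (modDS M D).cell A B σ = D.cell A B σ := by
  classical
  unfold SketchDS.cell
  have h2 : ((∑ z ∈ (modDS M D).Q σ with ∃ i j, A i + B j = z, (modDS M D).a σ z) +
      (modDS M D).f σ A + (modDS M D).g σ B : ZMod M) = ((D.sketch A B σ : ℤ) : ZMod M) := by
    unfold SketchDS.sketch modDS
    push_cast
    rfl
  rw [h2]
  have h3 : ((((D.sketch A B σ : ℤ) : ZMod M).val : ℕ) : ℤ) = D.sketch A B σ := by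
    rw [ZMod.val_intCast, Int.emod_eq_of_lt h0 h1]
  show D.make σ ((((D.sketch A B σ : ℤ) : ZMod M).val : ℕ) : ℤ) ((D.talk σ).run A B d) = _
  rw [h3]
  rfl

/-- integer sketches -/
theorem int_sketch (N t c s r d : ℕ) (Δ : Type) (δ : ℝ) (Ω : Type) [Fintype Ω] (p : Ω → ℝ)
    (D : Ω → SketchDS N c d (fun _ => ℤ) Δ) (ht : 1 ≤ t) (hr : 1 ≤ r) (hδ : 0 < δ)
    (hδ2 : δ ≤ 1 / 2)
    (hrange : ∀ ω A B, (∀ i, A i ≤ N ^ 3) → (∀ i, B i ≤ N ^ 3) → ∀ σ,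
      0 ≤ (D ω).sketch A B σ ∧ (D ω).sketch A B σ < 2 ^ r)
    (hs : ∀ ω, (D ω).space ≤ s) (hD : SketchSolves p D t δ) :
    δ ^ 10 * (N : ℝ) ^ 2 ≤ 10 ^ 39 * (((r : ℝ) + d) * t) ^ 4 * (r * s + 1) := by
  classical
  haveI : NeZero (2 ^ r) := ⟨by positivity⟩
  refine fin N t c s r d (fun _ => ZMod (2 ^ r)) Δ δ Ω p (fun ω => modDS (2 ^ r) (D ω)) ht hr hδ
    hδ2 (fun σ => by rw [ZMod.card]) (fun ω => hs ω) ?_
  obtain ⟨hp, hp1, hcor⟩ := hD
  refine ⟨hp, hp1, fun A B hA hB z => ?_⟩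
  have h1 : ∀ ω, (modDS (2 ^ r) (D ω)).cell A B = (D ω).cell A B := by
    intro ω
    funext σ
    have h2 := hrange ω A B hA hB σ
    exact modDS_cell (2 ^ r) (D ω) A B σ h2.1 (by push_cast; exact h2.2)
  simp only [h1]
  exact hcor A B hA hB z

end Pool.Agent.J4H45.GT
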