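import Pool.Agent.J4H45.GT.Cut

/-!
# (MNG) the main theorem for the advantage 49 / 100 (helper45)
-/

set_option autoImplicit false

namespace Pool.Agent.J4H45.GT

open Pool.Agent.W959 Pool.Agent.W959.Ent Pool.Agent.TH457.EntD Pool.Agent.N631.LX
open Pool.Agent.N631.SX

theorem t_MNG (hSER : S_SER) : S_MNG := by
  classical
  intro N h S κ _ Γ _ _ ℓ Ω _ p D ht hcard hs hD
  obtain ⟨m, hm⟩ : ∃ m : ℕ, m = 1400 * h := ⟨_, rfl⟩
  obtain ⟨n, hn⟩ : ∃ n : ℕ, n = m ^ 2 := ⟨_, rfl⟩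
  obtain ⟨q, hq⟩ : ∃ q : ℕ, q = 100000 * h := ⟨_, rfl⟩
  obtain ⟨ρ, hρ⟩ : ∃ ρ : ℕ, ρ = 1500 * h := ⟨_, rfl⟩
  have ht' : (1 : ℝ) ≤ h := by exact_mod_cast ht
  have hρ1 : 1 ≤ ρ := by omega
  have htt : h ≤ h ^ 2 := by nlinarith
  have htt1 : 1 ≤ h ^ 2 := Nat.one_le_pow _ _ ht
  have hn2 : n = 1960000 * h ^ 2 := by rw [hn, hm]; ring
  have hv : 2 ≤ vv n q := by unfold vv; omega
  have hρv : vv n q ≤ ρ * ρ := by
    have h3 : ρ * ρ = 2250000 * h ^ 2 := by rw [hρ]; ring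
    rw [h3]
    unfold vv
    rw [hn2, hq]
    omega
  have hs0 : (0 : ℝ) ≤ S := by positivity
  have hn' : (n : ℝ) = 1960000 * (h : ℝ) ^ 2 := by
    rw [hn2]
    push_cast
    ring
  by_cases hNn : N < 2 * n
  · have h1 : (N : ℝ) ≤ 2 * n := by exact_mod_cast hNn.le
    rw [hn'] at h1
    calc (N : ℝ) ^ 2 ≤ (2 * (1960000 * (h : ℝ) ^ 2)) ^ 2 :=
          pow_le_pow_left₀ (by positivity) h1 2
      _ = 15366400000000 * (h : ℝ) ^ 4 * 1 := by ring
      _ ≤ 10 ^ 31 * (h : ℝ) ^ 4 * ((S : ℝ) + 1) := by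
          apply mul_le_mul _ (by linarith) (by norm_num) (by positivity)
          exact mul_le_mul_of_nonneg_right (by norm_num) (by positivity)
  · push Not at hNn
    obtain ⟨k, hk⟩ : ∃ k : ℕ, k = N / (206004 * h) := ⟨_, rfl⟩
    have hkN : k * (206004 * h) ≤ N := by rw [hk]; exact Nat.div_mul_le_self _ _
    have hk1 : 1 ≤ k := by
      rw [hk, Nat.one_le_div_iff (by omega)]
      omega
    have hN : 2 * (k * ρ) + (n + k * (q + 2)) ≤ N := by
      have h1 : 2 * (k * ρ) + k * (q + 2) ≤ k * (103002 * h) := by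
        calc 2 * (k * ρ) + k * (q + 2) = k * (2 * ρ + (q + 2)) := by ring
          _ ≤ k * (103002 * h) := Nat.mul_le_mul_left _ (by omega)
      have h2 : k * (206004 * h) = 2 * (k * (103002 * h)) := by ring
      omega
    have hN2 : N ≤ (k + 1) * (206004 * h) := by
      have := Nat.lt_div_mul_add (a := N) (b := 206004 * h) (by omega)
      rw [← hk] at this
      have h2 : (k + 1) * (206004 * h) = k * (206004 * h) + 206004 * h := by ring
      omega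
    have hN2' : (N : ℝ) ≤ ((k : ℝ) + 1) * (206004 * h) := by exact_mod_cast hN2
    obtain ⟨hp, hp1, hcor⟩ := hD
    have hq1 : 1 ≤ q := by omega
    have hm2 : (2 : ℝ) ≤ m := by
      have : 2 ≤ m := by omega
      exact_mod_cast this
    have hinv0 : 0 ≤ 1 / (m : ℝ) := by positivity
    have hr1 : 0 ≤ 1 - 1 / (m : ℝ) := by
      have : 1 / (m : ℝ) ≤ 1 := by
        rw [div_le_one (by linarith)]
        linarith
      linarith
    have hcube : WW ρ (vv n q) * (k * k) ≤ N ^ 3 := cube2_le hρ1 hρv hk1 (by omega)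
    have hAle : ∀ (i0 : Fin k) (x : AA n k q) (l : Fin N), arrA2 N ρ i0 x l ≤ N ^ 3 :=
      fun i0 x l => (VA_le hρ1 hv _ (arrF_mem (x0A hρ1 i0 x) l)).trans hcube
    have hBle : ∀ (j0 : Fin k) (y : AA n k q) (l : Fin N), arrB2 N ρ j0 y l ≤ N ^ 3 :=
      fun j0 y l => (VB_le hρ1 hv _ (arrF_mem (x0B hρ1 j0 y) l)).trans hcube
    -- wrong answers
    let wr : Ω → Fin k × Fin k → AA n k q → AA n k q → Prop := fun ω pr x y =>
      ¬ ((((D ω).query (pos2 n q k ρ pr)).cut ℓ h).out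
        ((D ω).cell (arrA2 N ρ pr.1 x) (arrB2 N ρ pr.2 y)) = true ↔ ¬ conj x.1 y.1 = zero n)
    have hpt : ∀ (pr : Fin k × Fin k) (x y : AA n k q),
        ∑ ω, p ω * ind (wr ω pr x y) ≤ 1 / 100 := by
      intro pr x y
      have h1 := hcor (arrA2 N ρ pr.1 x) (arrB2 N ρ pr.2 y) (hAle _ _) (hBle _ _)
        (pos2 n q k ρ pr)
      have h0 := pos2_iff (N := N) hρ1 hv hN pr x y
      let gd : Ω → Prop := fun ω => (((D ω).query (pos2 n q k ρ pr)).out
          ((D ω).cell (arrA2 N ρ pr.1 x) (arrB2 N ρ pr.2 y)) = true ↔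
            ∃ l l' : Fin N, arrA2 N ρ pr.1 x l + arrB2 N ρ pr.2 y l' = pos2 n q k ρ pr) ∧
          ((D ω).query (pos2 n q k ρ pr)).cost ℓ
          ((D ω).cell (arrA2 N ρ pr.1 x) (arrB2 N ρ pr.2 y)) ≤ h
      have h1' : (1 / 2 + 49 / 100 : ℝ) ≤ ∑ ω, p ω * ind (gd ω) := by
        refine h1.trans (le_of_eq ?_)
        rw [Finset.sum_filter]
        refine Finset.sum_congr rfl fun ω _ => ?_
        by_cases hg : gd ω
        · rw [if_pos hg, ind_true hg, mul_one]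
        · rw [if_neg hg, ind_false hg, mul_zero]
      have h2 : ∀ ω, p ω * ind (wr ω pr x y) ≤ p ω - p ω * ind (gd ω) := by
        intro ω
        by_cases h : gd ω
        · have h3 : ¬ wr ω pr x y := by
            simp only [wr, not_not]
            rw [cut_out _ _ _ _ h.2, ← h0]
            exact h.1
          rw [ind_false h3, ind_true h]
          simp
        · rw [ind_false h, mul_zero, sub_zero]
          exact mul_le_of_le_one_right (hp ω) (ind_le_one _)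
      refine (Finset.sum_le_sum fun ω _ => h2 ω).trans ?_
      rw [Finset.sum_sub_distrib, hp1]
      linarith
    have hpair : ∀ pr : Fin k × Fin k, ∑ ω, p ω * EE (q := q) (1 / (m : ℝ))
        (fun x y : AA n k q => ind (wr ω pr x y)) ≤ 1 / 100 := by
      intro pr
      have e1 : ∑ ω, p ω * EE (q := q) (1 / (m : ℝ))
          (fun x y : AA n k q => ind (wr ω pr x y)) =
          EE (1 / (m : ℝ)) (fun x y => ∑ ω, p ω * ind (wr ω pr x y)) := by
        rw [EE_sum]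
        refine Finset.sum_congr rfl fun ω _ => ?_
        rw [EE_mul]
      rw [e1]
      refine (EE_mono hinv0 hr1 fun x y => hpt pr x y).trans ?_
      rw [EE_const hq1]
    have htot : ∑ pr : Fin k × Fin k, ∑ ω, p ω * EE (q := q) (1 / (m : ℝ))
        (fun x y : AA n k q => ind (wr ω pr x y)) ≤ (k : ℝ) ^ 2 * (1 / 100) := by
      refine (Finset.sum_le_sum fun pr _ => hpair pr).trans (le_of_eq ?_)
      rw [Finset.sum_const, Finset.card_univ, Fintype.card_prod, Fintype.card_fin, nsmul_eq_mul]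
      push_cast
      ring
    rw [Finset.sum_comm] at htot
    have hlow : ∀ ω, p ω * (((k : ℝ) ^ 2 - (1 + 10 ^ 18 * (h : ℝ) ^ 2 * S)) * (1 / 80)) ≤
        ∑ pr : Fin k × Fin k, p ω * EE (q := q) (1 / (m : ℝ))
        (fun x y : AA n k q => ind (wr ω pr x y)) := by
      intro ω
      rw [← Finset.mul_sum]
      exact mul_le_mul_of_nonneg_left
        (hSER N k q n m ρ h S κ Γ ℓ (D ω) ht hm hn hq hρ1 hρv hv hN hcard (hs ω)) (hp ω)
    have hlow2 : ((k : ℝ) ^ 2 - (1 + 10 ^ 18 * (h : ℝ) ^ 2 * S)) * (1 / 80) ≤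
        (k : ℝ) ^ 2 * (1 / 100) := by
      refine le_trans ?_ htot
      refine le_trans (le_of_eq ?_) (Finset.sum_le_sum fun ω _ => hlow ω)
      rw [← Finset.sum_mul, hp1, one_mul]
    have hk2 : (k : ℝ) ^ 2 ≤ 5 * (1 + 10 ^ 18 * (h : ℝ) ^ 2 * S) := by linarith
    have hk1' : (1 : ℝ) ≤ k := by exact_mod_cast hk1
    have hN4 : (N : ℝ) ≤ 412008 * (h : ℝ) * k := by
      refine hN2'.trans ?_
      have : (k : ℝ) + 1 ≤ 2 * k := by linarith
      calc ((k : ℝ) + 1) * (206004 * (h : ℝ)) ≤ 2 * k * (206004 * (h : ℝ)) :=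
            mul_le_mul_of_nonneg_right this (by positivity)
        _ = _ := by ring
    have hh2 : (h : ℝ) ^ 2 ≤ (h : ℝ) ^ 4 := pow_le_pow_right₀ ht' (by norm_num)
    calc (N : ℝ) ^ 2 ≤ (412008 * (h : ℝ) * k) ^ 2 := pow_le_pow_left₀ (by positivity) hN4 2
      _ = 169750592064 * (h : ℝ) ^ 2 * (k : ℝ) ^ 2 := by ring
      _ ≤ 169750592064 * (h : ℝ) ^ 2 * (5 * (1 + 10 ^ 18 * (h : ℝ) ^ 2 * S)) :=
          mul_le_mul_of_nonneg_left hk2 (by positivity)
      _ = 848752960320 * (h : ℝ) ^ 2 + 848752960320 * 10 ^ 18 * ((h : ℝ) ^ 4 * S) := by ring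
      _ ≤ 848752960320 * (h : ℝ) ^ 4 + 848752960320 * 10 ^ 18 * ((h : ℝ) ^ 4 * S) := by
          have := mul_le_mul_of_nonneg_left hh2 (by norm_num : (0 : ℝ) ≤ 848752960320)
          linarith
      _ ≤ 10 ^ 31 * (h : ℝ) ^ 4 + 10 ^ 31 * ((h : ℝ) ^ 4 * S) := by
          apply add_le_add
          · exact mul_le_mul_of_nonneg_right (by norm_num) (by positivity)
          · exact mul_le_mul_of_nonneg_right (by norm_num) (by positivity)
      _ = _ := by ring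

theorem t_MND (hMNG : S_MNG) (hAMG : S_AMG) : S_MND := by
  intro N h S κ _ Γ _ _ ℓ Ω _ p D δ ht hδ hδ2 hcard hs hD
  obtain ⟨r, hr⟩ : ∃ r : ℕ, r = ⌈25 / δ ^ 2⌉₊ := ⟨_, rfl⟩
  have hr1 : 25 / δ ^ 2 ≤ (r : ℝ) := by rw [hr]; exact Nat.le_ceil _
  have hδ3 : 0 < δ ^ 2 := by positivity
  have hr2 : (r : ℝ) ≤ 26 / δ ^ 2 := by
    have h1 := Nat.ceil_lt_add_one (show (0 : ℝ) ≤ 25 / δ ^ 2 by positivity)
    rw [← hr] at h1
    have h2 : (1 : ℝ) ≤ 1 / δ ^ 2 := by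
      rw [le_div_iff₀ hδ3]
      nlinarith
    have h3 : 26 / δ ^ 2 = 25 / δ ^ 2 + 1 / δ ^ 2 := by ring
    linarith
  have hrpos : 1 ≤ r := by
    have : (0 : ℝ) < r := lt_of_lt_of_le (by positivity) hr1
    have : 0 < r := by exact_mod_cast this
    omega
  obtain ⟨D', hD'1, hD'2⟩ := hAMG N h r S κ Γ ℓ Ω p D δ hδ hr1 hs hD
  have hmain := hMNG N (r * h) (r * S) (Fin r × κ) (fun c => Γ c.2) (fun c => ℓ c.2) (Fin r → Ω)
    (fun ω => ∏ l, p (ω l)) D' (Nat.one_le_iff_ne_zero.2 (by positivity))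
    (fun c => hcard c.2) hD'1 hD'2
  push_cast at hmain
  have hr3 : (1 : ℝ) ≤ r := by exact_mod_cast hrpos
  have hs0 : (0 : ℝ) ≤ S := by positivity
  have h1 : (r : ℝ) * S + 1 ≤ r * (S + 1) := by nlinarith
  have h2 : (N : ℝ) ^ 2 ≤ 10 ^ 31 * (r : ℝ) ^ 5 * ((h : ℝ) ^ 4 * (S + 1)) := by
    refine hmain.trans ?_
    calc 10 ^ 31 * ((r : ℝ) * h) ^ 4 * (r * S + 1) ≤ 10 ^ 31 * ((r : ℝ) * h) ^ 4 * (r * (S + 1)) :=
          mul_le_mul_of_nonneg_left h1 (by positivity)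
      _ = _ := by ring
  have h3 : δ ^ 10 * (r : ℝ) ^ 5 ≤ 26 ^ 5 := by
    calc δ ^ 10 * (r : ℝ) ^ 5 = (δ ^ 2 * r) ^ 5 := by ring
      _ ≤ 26 ^ 5 := by
          apply pow_le_pow_left₀ (by positivity)
          rw [le_div_iff₀ hδ3] at hr2
          linarith
  have h4 : (0 : ℝ) ≤ (h : ℝ) ^ 4 * (S + 1) := by positivity
  calc δ ^ 10 * (N : ℝ) ^ 2 ≤ δ ^ 10 * (10 ^ 31 * (r : ℝ) ^ 5 * ((h : ℝ) ^ 4 * (S + 1))) :=
        mul_le_mul_of_nonneg_left h2 (by positivity)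
    _ = 10 ^ 31 * (δ ^ 10 * (r : ℝ) ^ 5) * ((h : ℝ) ^ 4 * (S + 1)) := by ring
    _ ≤ 10 ^ 31 * 26 ^ 5 * ((h : ℝ) ^ 4 * (S + 1)) := by
        apply mul_le_mul_of_nonneg_right _ h4
        exact mul_le_mul_of_nonneg_left h3 (by positivity)
    _ ≤ 10 ^ 39 * ((h : ℝ) ^ 4 * (S + 1)) := mul_le_mul_of_nonneg_right (by norm_num) h4
    _ = _ := by ring

end Pool.Agent.J4H45.GT
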