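import Pool.Agent.J4H45.GT.Stm

/-!
# (PAIR) the error for a good pair (helper45)
-/

set_option autoImplicit false

namespace Pool.Agent.J4H45.GT

open Pool.Agent.W959 Pool.Agent.W959.Ent Pool.Agent.TH457.EntD Pool.Agent.N631.LX
open Pool.Agent.N631.SX

theorem EE_swap {k q n : ℕ} (r : ℝ) (F : AA n k q → AA n k q → ℝ) :
    EE r F = ex2 r n fun X Y => ((Fintype.card (U k q) : ℝ)⁻¹) ^ 2 * ∑ u : U k q, ∑ w : U k q,
      F (X, u) (Y, w) := by
  unfold EE
  rw [ex2_mul, ex2_sum]
  congr 1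
  refine Finset.sum_congr rfl fun u _ => ?_
  rw [ex2_sum]

theorem t_PAIR (hRMV : S_RMV) (hRECT : S_RECT) : S_PAIR := by
  classical
  intro k q n m h κ _ Γ _ _ ℓ C f g i0 j0 T ht hm hn hqt hcard hT hgood
  have hm12 : 1200 ≤ m := by rw [hm]; omega
  have hm10 : 10 ≤ m := by omega
  have hq : 1 ≤ q := by omega
  have hm' : (1200 : ℝ) ≤ m := by exact_mod_cast hm12
  have hm0 : (0 : ℝ) < m := by linarith
  have hh1 : (1 : ℝ) ≤ h := by exact_mod_cast ht
  have hinv : 1 / (m : ℝ) ≤ 1 / 10 := by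
    apply one_div_le_one_div_of_le <;> linarith
  have hinv0 : 0 ≤ 1 / (m : ℝ) := by positivity
  have hr1 : 0 ≤ 1 - 1 / (m : ℝ) := by linarith
  have hme : 100 * ((2 * h + 12 : ℕ) : ℝ) ≤ m := by
    have : 100 * (2 * h + 12) ≤ m := by
      rw [hm]
      omega
    exact_mod_cast this
  obtain ⟨e, he⟩ : ∃ e : ℝ, e = ((2 * h + 12 : ℕ) : ℝ) := ⟨_, rfl⟩
  rw [← he] at hme
  obtain ⟨α, hα⟩ : ∃ α : ℝ, α = 2 ^ (e * (1 / ((m : ℝ) + 1))) := ⟨_, rfl⟩
  obtain ⟨β, hβ⟩ : ∃ β : ℝ, β = 2 ^ (-e * (1 - 1 / ((m : ℝ) + 1))) := ⟨_, rfl⟩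
  have hα0 : 0 ≤ α := by rw [hα]; positivity
  have hβ0 : 0 ≤ β := by rw [hβ]; positivity
  have hα1 : α ≤ 1007 / 1000 := by rw [hα]; exact two_rpow_le hme
  have hβ1 : β * 2 ^ (2 * h) ≤ 1007 / 1000 * (1 / 4096) := by
    have h1 : β * 2 ^ (2 * h) = α * (1 / 4096) := by
      rw [hα, hβ, ← Real.rpow_natCast, ← Real.rpow_add (by norm_num),
        show (1 / 4096 : ℝ) = 2 ^ (-12 : ℝ) by
          rw [Real.rpow_neg (by norm_num)]; norm_num,
        ← Real.rpow_add (by norm_num)]
      congr 1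
      rw [he]
      push_cast
      ring
    rw [h1]
    exact mul_le_mul_of_nonneg_right hα1 (by norm_num)
  obtain ⟨κ', hκ⟩ : ∃ κ' : ℝ, κ' = (1 - 1 / (22 * (m : ℝ) ^ 2)) ^ n := ⟨_, rfl⟩
  have hκ0 : 0 ≤ κ' := by
    rw [hκ]
    apply pow_nonneg
    have : 1 / (22 * (m : ℝ) ^ 2) ≤ 1 := by
      rw [div_le_one (by positivity)]
      nlinarith
    linarith
  have hκ1 : κ' ≤ 22 / 23 := by
    rw [hκ, hn]
    exact gamma_le hm10
  -- leaving out the pair
  obtain ⟨η, hη⟩ : ∃ η : ℝ, η = 7 * (1 / 20000) +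
    3 * 2 ^ h * Real.exp (-((128 * ((h : ℝ) + 12)) / 128)) := ⟨_, rfl⟩
  have hη1 : η ≤ 38 / 100000 := by
    rw [hη]
    have h7 : (2 : ℝ) ^ h ≤ Real.exp h := by
      calc (2 : ℝ) ^ h ≤ Real.exp 1 ^ h := by
            apply pow_le_pow_left₀ (by norm_num)
            have := Real.add_one_le_exp (1 : ℝ)
            linarith
        _ = Real.exp h := by
            rw [← Real.exp_nat_mul]
            simp
    have h8 : (2 : ℝ) ^ h * Real.exp (-((128 * ((h : ℝ) + 12)) / 128)) ≤ 1 / 100000 := by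
      calc _ ≤ Real.exp h * Real.exp (-((128 * ((h : ℝ) + 12)) / 128)) :=
            mul_le_mul_of_nonneg_right h7 (Real.exp_pos _).le
        _ = Real.exp (-12) := by
            rw [← Real.exp_add]
            congr 1
            ring
        _ ≤ _ := exp12
    calc 7 * (1 / 20000 : ℝ) + 3 * 2 ^ h * Real.exp (-((128 * ((h : ℝ) + 12)) / 128)) =
        7 * (1 / 20000 : ℝ) + 3 * (2 ^ h * Real.exp (-((128 * ((h : ℝ) + 12)) / 128))) := by ring
      _ ≤ 7 * (1 / 20000 : ℝ) + 3 * (1 / 100000) := by linarith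
      _ ≤ _ := by norm_num
  have hη0 : 0 ≤ η := by rw [hη]; positivity
  have hrm : ∀ X Y : Fin n → Bool,
      |((Fintype.card (U k q) : ℝ)⁻¹) ^ 2 * ∑ u : U k q, ∑ w : U k q,
      (ind (T.out (fun σ => vval C f g i0 j0 (X, u) (Y, w) σ) = false) -
        ind (T.out (fun σ => zval C f g i0 j0 (X, u) (Y, w) σ) = false))| ≤ η := by
    intro X Y
    have hK : 32 * (128 * ((h : ℝ) + 12) + 1) ≤ q := by
      rw [hqt]
      push_cast
      linarith
    rw [hη]
    exact hRMV k q n κ Γ ℓ C f g i0 j0 _ _ h T false hq hcard hT (by positivity) hK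
      (by norm_num) (by norm_num) hgood X Y
  -- names
  obtain ⟨Vf, hVf⟩ : ∃ Vf, Vf = EE (1 / (m : ℝ)) (fun x y : AA n k q => ind (
        T.out (fun σ => vval C f g i0 j0 x y σ) = false)) := ⟨_, rfl⟩
  obtain ⟨Zf, hZf⟩ : ∃ Zf, Zf = EE (1 / (m : ℝ)) (fun x y : AA n k q => ind (
        T.out (fun σ => zval C f g i0 j0 x y σ) = false)) := ⟨_, rfl⟩
  have hZV : Zf ≤ Vf + η := by
    have h1 : Zf - Vf = ex2 (1 / (m : ℝ)) n fun X Y => ((Fintype.card (U k q) : ℝ)⁻¹) ^ 2 *
        ∑ u : U k q, ∑ w : U k q,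
        (ind (T.out (fun σ => zval C f g i0 j0 (X, u) (Y, w) σ) = false) -
          ind (T.out (fun σ => vval C f g i0 j0 (X, u) (Y, w) σ) = false)) := by
      rw [← EE_swap (1 / (m : ℝ)) (fun x y : AA n k q =>
        ind (T.out (fun σ => zval C f g i0 j0 x y σ) = false) -
          ind (T.out (fun σ => vval C f g i0 j0 x y σ) = false)), hZf, hVf]
      have h2 := EE_add (k := k) (q := q) (n := n) (r := 1 / (m : ℝ)) (fun x y =>
        ind (T.out (fun σ => zval C f g i0 j0 x y σ) = false) -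
          ind (T.out (fun σ => vval C f g i0 j0 x y σ) = false)) (fun x y =>
          ind (T.out (fun σ => vval C f g i0 j0 x y σ) = false))
      simp only [sub_add_cancel] at h2
      linarith
    have h2 : ex2 (1 / (m : ℝ)) n (fun X Y => ((Fintype.card (U k q) : ℝ)⁻¹) ^ 2 *
        ∑ u : U k q, ∑ w : U k q,
        (ind (T.out (fun σ => zval C f g i0 j0 (X, u) (Y, w) σ) = false) -
          ind (T.out (fun σ => vval C f g i0 j0 (X, u) (Y, w) σ) = false))) ≤ η := by
      have h3 := ex2_mono hinv0 hr1 n (g := fun _ _ => η) (f := fun X Y =>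
        ((Fintype.card (U k q) : ℝ)⁻¹) ^ 2 * ∑ u : U k q, ∑ w : U k q,
        (ind (T.out (fun σ => zval C f g i0 j0 (X, u) (Y, w) σ) = false) -
          ind (T.out (fun σ => vval C f g i0 j0 (X, u) (Y, w) σ) = false))) (fun X Y => by
          have h4 := (abs_le.1 (hrm X Y)).1
          have h5 : ((Fintype.card (U k q) : ℝ)⁻¹) ^ 2 * ∑ u : U k q, ∑ w : U k q,
            (ind (T.out (fun σ => zval C f g i0 j0 (X, u) (Y, w) σ) = false) -
              ind (T.out (fun σ => vval C f g i0 j0 (X, u) (Y, w) σ) = false)) =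
            -(((Fintype.card (U k q) : ℝ)⁻¹) ^ 2 * ∑ u : U k q, ∑ w : U k q,
            (ind (T.out (fun σ => vval C f g i0 j0 (X, u) (Y, w) σ) = false) -
              ind (T.out (fun σ => zval C f g i0 j0 (X, u) (Y, w) σ) = false))) := by
            rw [← mul_neg, ← Finset.sum_neg_distrib]
            congr 1
            refine Finset.sum_congr rfl fun u _ => ?_
            rw [← Finset.sum_neg_distrib]
            refine Finset.sum_congr rfl fun w _ => ?_
            ring
          rw [h5]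
          linarith)
      rwa [ex2_const] at h3
    linarith
  obtain ⟨A, hA⟩ : ∃ A, A = EE (1 / (m : ℝ)) (fun x y : AA n k q => ind (
        T.out (fun σ => vval C f g i0 j0 x y σ) = false) *
        ind (conj x.1 y.1 = zero n)) := ⟨_, rfl⟩
  obtain ⟨w, hw⟩ : ∃ w, w = EE (1 / (m : ℝ)) (fun x y : AA n k q => ind (¬ (
      T.out (fun σ => vval C f g i0 j0 x y σ) = true ↔ ¬ conj x.1 y.1 = zero n))) :=
    ⟨_, rfl⟩
  rw [← hw]
  have hA0 : 0 ≤ A := by
    rw [hA]
    exact EE_nonneg hinv0 hr1 fun x y => mul_nonneg (ind_nonneg _) (ind_nonneg _)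
  have hw0 : 0 ≤ w := by
    rw [hw]
    exact EE_nonneg hinv0 hr1 fun x y => ind_nonneg _
  have hZf0 : 0 ≤ Zf := by
    rw [hZf]
    exact EE_nonneg hinv0 hr1 fun x y => ind_nonneg _
  -- corruption
  have h1 : A ≤ κ' * (α * Zf + β * 2 ^ (2 * h)) := by
    have e1 : A = EE (1 / (m : ℝ)) (fun x y : AA n k q => ind (
        T.out (fun σ => zval C f g i0 j0 x y σ) = false) *
        ind (conj x.1 y.1 = zero n)) := by
      rw [hA]
      congr 1
      funext x y
      by_cases hD : conj x.1 y.1 = zero n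
      · have e2 : (fun σ => vval C f g i0 j0 x y σ) = fun σ => zval C f g i0 j0 x y σ := by
          funext σ
          unfold vval
          rw [if_pos hD, add_zero]
        rw [e2]
      · rw [ind_false hD, mul_zero, mul_zero]
    have h4 : ∀ u v : U k q,
        ex2 (1 / (m : ℝ)) n (fun X Y => ind (T.out (fun σ =>
          zval C f g i0 j0 (X, u) (Y, v) σ) = false) * ind (conj X Y = zero n)) ≤
        κ' * (α * ex2 (1 / (m : ℝ)) n (fun X Y => ind (T.out (fun σ =>
          zval C f g i0 j0 (X, u) (Y, v) σ) = false)) + β * 2 ^ (2 * h)) := by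
      intro u v
      have h5 := hRECT m n κ Γ ℓ h T
        (fun σ X => f σ (X, u) + ∑ i, ∑ j, if zz i0 j0 u v i j = true then C σ i j else 0)
        (fun σ Y => g σ (Y, v)) α β hm10 hcard hT hα0 hβ0
        (fun P hP => by rw [hα, hβ]; exact holder_leaf hm10 e P hP)
      have e3 : ∀ X Y : Fin n → Bool, (fun σ => zval C f g i0 j0 (X, u) (Y, v) σ) = fun σ =>
          (f σ (X, u) + ∑ i, ∑ j, if zz i0 j0 u v i j = true then C σ i j else 0) +
            g σ (Y, v) := by
        intro X Y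
        funext σ
        unfold zval
        abel
      simp only [e3]
      rw [hκ]
      exact h5
    rw [e1, hZf]
    have h7 : EE (1 / (m : ℝ)) (fun x y : AA n k q => ind (
        T.out (fun σ => zval C f g i0 j0 x y σ) = false) *
        ind (conj x.1 y.1 = zero n)) ≤ ((Fintype.card (U k q) : ℝ)⁻¹) ^ 2 *
        ∑ u : U k q, ∑ v : U k q, κ' *
        (α * ex2 (1 / (m : ℝ)) n (fun X Y => ind (T.out (fun σ =>
          zval C f g i0 j0 (X, u) (Y, v) σ) = false)) + β * 2 ^ (2 * h)) := by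
      apply mul_le_mul_of_nonneg_left _ (by positivity)
      exact Finset.sum_le_sum fun u _ => Finset.sum_le_sum fun v _ => h4 u v
    refine h7.trans (le_of_eq ?_)
    unfold EE
    simp only [← Finset.mul_sum, Finset.sum_add_distrib, Finset.sum_const, Finset.card_univ,
      nsmul_eq_mul]
    have hN := card_pos (k := k) hq
    field_simp
  have h2 : Vf ≤ A + w := by
    rw [hA, hw, hVf, ← EE_add]
    apply EE_mono hinv0 hr1
    intro x y
    by_cases h3 : T.out (fun σ => vval C f g i0 j0 x y σ) = false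
    · by_cases h4 : conj x.1 y.1 = zero n
      · rw [ind_true h3, ind_true h4]
        have := ind_nonneg (¬ (T.out (fun σ => vval C f g i0 j0 x y σ) = true ↔
          ¬ conj x.1 y.1 = zero n))
        linarith
      · have h5 : ¬ (T.out (fun σ => vval C f g i0 j0 x y σ) = true ↔
            ¬ conj x.1 y.1 = zero n) := by
          rw [h3]
          simp [h4]
        rw [ind_true h3, ind_false h4, ind_true h5]
        norm_num
    · rw [ind_false h3, zero_mul, zero_add]
      exact ind_nonneg _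
  have h3 : (366 / 1000 : ℝ) ≤ A + w := by
    have h4 : (366 / 1000 : ℝ) ≤
        EE (k := k) (q := q) (1 / (m : ℝ)) (fun x y => ind (conj x.1 y.1 = zero n)) := by
      unfold EE
      simp only [ex2_disj, Finset.sum_const, Finset.card_univ, nsmul_eq_mul]
      have hN := card_pos (k := k) hq
      have h5 := disj_ge hm12
      rw [hn]
      calc (366 / 1000 : ℝ) ≤ _ := h5
        _ = _ := by field_simp
    refine h4.trans ?_
    rw [hA, hw, ← EE_add]
    apply EE_mono hinv0 hr1
    intro x y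
    by_cases h4 : conj x.1 y.1 = zero n
    · rw [ind_true h4]
      by_cases h3 : T.out (fun σ => vval C f g i0 j0 x y σ) = false
      · rw [ind_true h3]
        have := ind_nonneg (¬ (T.out (fun σ => vval C f g i0 j0 x y σ) = true ↔
          ¬ conj x.1 y.1 = zero n))
        linarith
      · have h5 : ¬ (T.out (fun σ => vval C f g i0 j0 x y σ) = true ↔
            ¬ conj x.1 y.1 = zero n) := by
          rw [Bool.not_eq_false] at h3
          rw [h3]
          simp [h4]
        rw [ind_true h5]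
        have := mul_nonneg (ind_nonneg (T.out (fun σ => vval C f g i0 j0 x y σ) = false))
          (zero_le_one (α := ℝ))
        linarith
    · rw [ind_false h4, mul_zero, zero_add]
      exact ind_nonneg _
  have h5 : κ' * α ≤ 9634 / 10000 := by
    calc κ' * α ≤ 22 / 23 * (1007 / 1000) := mul_le_mul hκ1 hα1 hα0 (by norm_num)
      _ ≤ _ := by norm_num
  have h6 : κ' * (α * Zf) ≤ 9634 / 10000 * (A + w + 38 / 100000) := by
    have h7 : 0 ≤ κ' * α := by positivity
    calc κ' * (α * Zf) = κ' * α * Zf := by ring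
      _ ≤ κ' * α * (A + w + 38 / 100000) := mul_le_mul_of_nonneg_left (by linarith) h7
      _ ≤ _ := mul_le_mul_of_nonneg_right h5 (by linarith)
  have h8 : κ' * (β * 2 ^ (2 * h)) ≤ 22 / 23 * (1007 / 1000 * (1 / 4096)) :=
    mul_le_mul hκ1 hβ1 (by positivity) (by norm_num)
  have h9 : A ≤ κ' * (α * Zf) + κ' * (β * 2 ^ (2 * h)) := by
    rw [← mul_add]
    exact h1
  norm_num at h8
  linarith

end Pool.Agent.J4H45.GT
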