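import Pool.Agent.J4H45.GT.Rmv
import Pool.Agent.J4H45.GT.Pair
import Pool.Agent.J4H45.GT.Mng
import Pool.Agent.J4H45.GT.Ser
import Pool.Agent.J4H52.GT.Tree
import Pool.Agent.J4H74.GT.Brn
import Pool.Agent.J4H21.GT.Col
import Pool.Agent.J4H82.GT.Cn0
import Pool.Agent.J4H31.GT.Cnt
import Pool.Agent.J4H31.GT.Lge
import Pool.Agent.J4H72.GT.Hv1
import Pool.Agent.J4H4.GT.Hv2
import Pool.Agent.J4H94.GT.Hvy
import Pool.Agent.J4H52.GT.Rect
import Pool.Agent.J4H4.GT.Bad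
import Pool.Agent.J4H18.GT.Amg
import Pool.Agent.J4H18.GT.Dec
import Pool.Agent.J4H4.GT.Sim

/-!
# Tables over finite abelian groups for 3SUM-Indexing: assembly (helper45)

Pieces by helper52 (TREE, RECT), helper74 (BRN), helper21 (COL), helper82 (CN0), helper31 (CNT, LGE),
helper72 (HV1), helper4 (HV2, BAD, SIM), helper94 (HVC, HVY), helper18 (AMG, DEC).
-/

set_option autoImplicit false

namespace Pool.Agent.J4H45.GT

theorem hvy : S_HVY :=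
  Pool.Agent.J4H94.GT.t_HVY (Pool.Agent.J4H94.GT.t_HVC Pool.Agent.J4H72.GT.t_HV1
    (Pool.Agent.J4H4.GT.t_HV2 Pool.Agent.J4H21.GT.t_COL))

theorem rmv : S_RMV := t_RMV Pool.Agent.J4H52.GT.t_TREE Pool.Agent.J4H74.GT.t_BRN hvy

theorem pair : S_PAIR := t_PAIR rmv Pool.Agent.J4H52.GT.t_RECT

theorem bad : S_BAD :=
  Pool.Agent.J4H4.GT.t_BAD (Pool.Agent.J4H31.GT.t_CNT Pool.Agent.J4H82.GT.t_CN0)
    Pool.Agent.J4H31.GT.t_LGE

theorem ser : S_SER := t_SER pair bad Pool.Agent.J4H18.GT.t_DEC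

theorem mnd : S_MND := t_MND (t_MNG ser) Pool.Agent.J4H18.GT.t_AMG

theorem fin : S_FIN := Pool.Agent.J4H4.GT.t_SIM mnd

end Pool.Agent.J4H45.GT
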