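import Pool.Agent.J4H45.GT.EFin
import Pool.Agent.N631.SX.RMain

/-!
# Reachability oracles made from group sketches of the answers (helper45)
-/

set_option autoImplicit false

namespace Pool.Agent.J4H45.GT

open Pool.Agent.N631.SX

/-- A reachability oracle for directed graphs with the vertices `0, …, n - 1`, with `c` cells. The
contents of the cell `σ` are an arbitrary function `make σ` of an element of the finite abelian group
`Γ σ` and of the `d` bits of a protocol of two players who know the arcs with a tail less than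
`n / 2` and the other arcs. The group element is the sum of the elements `a σ p` over all queries
`p = (x, y)` in `P σ` such that there is a path from `x` to `y`, plus an arbitrary function `f σ` of
the arcs with a tail less than `n / 2`, plus an arbitrary function `g σ` of the other arcs. The query
`(x, y)` reads cells adaptively. -/
structure RSketchDS (n c d : ℕ) (Γ : Fin c → Type) (Δ : Type) where
  P : Fin c → Finset (Fin n × Fin n)
  a : ∀ σ, Fin n × Fin n → Γ σ
  f : ∀ σ, Finset (Fin n × Fin n) → Γ σ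
  g : ∀ σ, Finset (Fin n × Fin n) → Γ σ
  talk : Fin c → Talk (Finset (Fin n × Fin n)) (Finset (Fin n × Fin n))
  make : ∀ σ, Γ σ → List Bool → Δ
  query : Fin n → Fin n → CTree c Δ

open Classical in
/-- the contents of the cell `σ` -/
noncomputable def RSketchDS.cell {n c d : ℕ} {Γ : Fin c → Type} [∀ σ, AddCommGroup (Γ σ)]
    {Δ : Type} (D : RSketchDS n c d Γ Δ) (E : Finset (Fin n × Fin n)) (σ : Fin c) : Δ :=
  D.make σ ((∑ p ∈ D.P σ with Reach E p.1 p.2, D.a σ p) + D.f σ (lowE E) + D.g σ (highE E))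
    ((D.talk σ).run (lowE E) (highE E) d)

open Classical in
/-- the number of cells in which answers enter -/
noncomputable def RSketchDS.space {n c d : ℕ} {Γ : Fin c → Type} {Δ : Type}
    (D : RSketchDS n c d Γ Δ) : ℕ :=
  (Finset.univ.filter fun σ : Fin c => (D.P σ).Nonempty).card

open Classical in
/-- For all directed graphs with `n` vertices and at most `n` arcs and all vertices `x`, `y`, with
probability at least `1 / 2 + δ` the random oracle `D` (probabilities `p`) decides whether there is a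
path from `x` to `y`, correctly and reading at most `t` cells. -/
def RSketchSolves {n c d : ℕ} {Γ : Fin c → Type} [∀ σ, AddCommGroup (Γ σ)] {Δ : Type}
    {Ω : Type} [Fintype Ω] (p : Ω → ℝ) (D : Ω → RSketchDS n c d Γ Δ) (t : ℕ) (δ : ℝ) : Prop :=
  (∀ ω, 0 ≤ p ω) ∧ ∑ ω, p ω = 1 ∧
    ∀ E : Finset (Fin n × Fin n), E.card ≤ n → ∀ x y : Fin n,
      1 / 2 + δ ≤ ∑ ω with (((D ω).query x y).out ((D ω).cell E) = true ↔ Reach E x y) ∧
        ((D ω).query x y).probes ((D ω).cell E) ≤ t, p ω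

section graph

variable {n u k b0 : ℕ} (h : 2 * k ≤ n ∧ n ≤ 2 * b0 ∧ b0 + u + k ≤ n)

include h

open Classical in
theorem reach_ite {G : Type} [AddCommGroup G] (X Y : Fin k → Finset (Fin u))
    (q : Fin n × Fin n) (g : G) :
    (if Reach (GX h X ∪ GY h Y) q.1 q.2 then g else 0) =
      (∑ p : Fin k × Fin k, if q = (vS h p.1, vT h p.2) then
        (if (X p.1 ∩ Y p.2).Nonempty then g else 0) else 0) +
      (if q.1 = q.2 ∨ q ∈ GX h X then g else 0) + (if q ∈ GY h Y then g else 0) := by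
  obtain ⟨a, b⟩ := q
  simp only [reach_iff h X Y a b]
  by_cases h3 : ∃ i j, a = vS h i ∧ b = vT h j
  · obtain ⟨i, j, rfl, rfl⟩ := h3
    have h0 : (∑ p : Fin k × Fin k, if (vS h i, vT h j) = (vS h p.1, vT h p.2) then
        (if (X p.1 ∩ Y p.2).Nonempty then g else 0) else 0) =
        if (X i ∩ Y j).Nonempty then g else 0 := by
      rw [Finset.sum_eq_single (i, j)]
      · rw [if_pos rfl]
      · rintro ⟨i', j'⟩ _ hne
        rw [if_neg]
        intro h1
        rw [Prod.mk.injEq] at h1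
        exact hne (by rw [vS_inj h h1.1, vT_inj h h1.2])
      · intro h1
        exact absurd (Finset.mem_univ _) h1
    rw [h0]
    have h4 : ¬ (vS h i = vT h j ∨
        (vS h i, vT h j) ∈ GX h X) := by
      rintro (h5 | h5)
      · exact vST h _ _ h5
      · obtain ⟨i', e', _, he⟩ := (mem_GX h).1 h5
        rw [Prod.mk.injEq] at he
        exact vMT h _ _ he.2.symm
    have h5 : ¬ (vS h i, vT h j) ∈ GY h Y := by
      intro h5
      obtain ⟨i', e', _, he⟩ := (mem_GY h).1 h5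
      rw [Prod.mk.injEq] at he
      exact vSM h _ _ he.1
    have h6 : (∃ i_1 j_1, vS h i = vS h i_1 ∧ vT h j = vT h j_1 ∧
        (X i_1 ∩ Y j_1).Nonempty) ↔ (X i ∩ Y j).Nonempty := by
      constructor
      · rintro ⟨i', j', h7, h8, h9⟩
        rw [vS_inj h h7, vT_inj h h8]
        exact h9
      · intro h7
        exact ⟨i, j, rfl, rfl, h7⟩
    simp only [h4, h5, h6, false_or, if_false, add_zero]
  · have h0 : (∑ p : Fin k × Fin k, if (a, b) = (vS h p.1, vT h p.2) then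
        (if (X p.1 ∩ Y p.2).Nonempty then g else 0) else 0) = 0 := by
      refine Finset.sum_eq_zero fun p _ => ?_
      rw [if_neg]
      intro h4
      rw [Prod.mk.injEq] at h4
      exact h3 ⟨p.1, p.2, h4.1, h4.2⟩
    rw [h0, zero_add]
    have h6 : ¬ ∃ i j, a = vS h i ∧ b = vT h j ∧ (X i ∩ Y j).Nonempty := by
      rintro ⟨i, j, h7, h8, -⟩
      exact h3 ⟨i, j, h7, h8⟩
    by_cases h5 : (a, b) ∈ GY h Y
    · have h4 : ¬ (a = b ∨ (a, b) ∈ GX h X) := by
        obtain ⟨j', e', _, he⟩ := (mem_GY h).1 h5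
        rw [Prod.mk.injEq] at he
        rintro (h4 | h4)
        · rw [he.1, he.2] at h4
          exact vMT h _ _ h4
        · obtain ⟨i'', e'', _, he'⟩ := (mem_GX h).1 h4
          rw [Prod.mk.injEq] at he'
          rw [he'.1] at he
          exact vSM h _ _ he.1
      simp only [h4, h5, false_or, true_or, if_true, if_false, zero_add]
    · simp only [h5, h6, or_false, if_false, add_zero]

end graph

variable {n u k b0 c d : ℕ} {Γ : Fin c → Type} {Δ : Type}

open Classical in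
/-- the structure for families of sets -/
noncomputable def redG [∀ σ, AddCommGroup (Γ σ)]
    (h : 2 * k ≤ n ∧ n ≤ 2 * b0 ∧ b0 + u + k ≤ n)
    (D : RSketchDS n c d Γ Δ) : ESketchDS k u c d Γ Δ where
  P σ := Finset.univ.filter fun p : Fin k × Fin k => (vS h p.1, vT h p.2) ∈ D.P σ
  a σ p := D.a σ (vS h p.1, vT h p.2)
  f σ X := D.f σ (GX h X) + ∑ q ∈ D.P σ with q.1 = q.2 ∨ q ∈ GX h X, D.a σ q
  g σ Y := D.g σ (GY h Y) + ∑ q ∈ D.P σ with q ∈ GY h Y, D.a σ q
  talk σ := ⟨(D.talk σ).turn, fun l X => (D.talk σ).fst l (GX h X),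
    fun l Y => (D.talk σ).snd l (GY h Y)⟩
  make := D.make
  query i j := D.query (vS h i) (vT h j)

theorem redG_cell [∀ σ, AddCommGroup (Γ σ)] (h : 2 * k ≤ n ∧ n ≤ 2 * b0 ∧ b0 + u + k ≤ n)
    (D : RSketchDS n c d Γ Δ) (X Y : Fin k → Finset (Fin u)) :
    (redG h D).cell X Y = D.cell (GX h X ∪ GY h Y) := by
  classical
  funext σ
  have h1 : (∑ p ∈ (redG h D).P σ with (X p.1 ∩ Y p.2).Nonempty, (redG h D).a σ p) +
      (redG h D).f σ X + (redG h D).g σ Y =
      (∑ p ∈ D.P σ with Reach (GX h X ∪ GY h Y) p.1 p.2, D.a σ p) +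
        D.f σ (lowE (GX h X ∪ GY h Y)) + D.g σ (highE (GX h X ∪ GY h Y)) := by
    rw [low_eq, high_eq, Finset.sum_filter (s := D.P σ)]
    have h2 : ∀ q ∈ D.P σ, (if Reach (GX h X ∪ GY h Y) q.1 q.2 then D.a σ q else 0) =
        (∑ p : Fin k × Fin k, if q = (vS h p.1, vT h p.2) then
          (if (X p.1 ∩ Y p.2).Nonempty then D.a σ q else 0) else 0) +
        (if q.1 = q.2 ∨ q ∈ GX h X then D.a σ q else 0) +
        (if q ∈ GY h Y then D.a σ q else 0) := fun q _ => reach_ite h X Y q (D.a σ q)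
    rw [Finset.sum_congr rfl h2, Finset.sum_add_distrib, Finset.sum_add_distrib]
    have h3 : ∑ q ∈ D.P σ, ∑ p : Fin k × Fin k, (if q = (vS h p.1, vT h p.2) then
          (if (X p.1 ∩ Y p.2).Nonempty then D.a σ q else 0) else 0) =
        ∑ p ∈ (redG h D).P σ with (X p.1 ∩ Y p.2).Nonempty, (redG h D).a σ p := by
      rw [Finset.sum_comm, Finset.sum_filter]
      show _ = ∑ p ∈ Finset.univ.filter (fun p : Fin k × Fin k =>
        (vS h p.1, vT h p.2) ∈ D.P σ), _
      rw [Finset.sum_filter]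
      refine Finset.sum_congr rfl fun p _ => ?_
      rw [Finset.sum_ite_eq']
      rfl
    rw [h3]
    have h4 : (redG h D).f σ X = D.f σ (GX h X) +
        ∑ q ∈ D.P σ, (if q.1 = q.2 ∨ q ∈ GX h X then D.a σ q else 0) := by
      rw [← Finset.sum_filter]
      rfl
    have h5 : (redG h D).g σ Y = D.g σ (GY h Y) +
        ∑ q ∈ D.P σ, (if q ∈ GY h Y then D.a σ q else 0) := by
      rw [← Finset.sum_filter]
      rfl
    rw [h4, h5]
    abel
  have h2 : ((redG h D).talk σ).run X Y d =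
      (D.talk σ).run (GX h X) (GY h Y) d :=
    run_map (D.talk σ) ((redG h D).talk σ) (GX h X) (GY h Y) X Y (fun l => rfl) d
  unfold ESketchDS.cell RSketchDS.cell
  rw [h1, h2, low_eq, high_eq]
  rfl

theorem redG_space [∀ σ, AddCommGroup (Γ σ)] {s : ℕ}
    (h : 2 * k ≤ n ∧ n ≤ 2 * b0 ∧ b0 + u + k ≤ n)
    (D : RSketchDS n c d Γ Δ) (hs : D.space ≤ s) : (redG h D).space ≤ s := by
  classical
  refine le_trans (Finset.card_le_card ?_) hs
  intro σ hσ
  rw [Finset.mem_filter] at hσ ⊢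
  refine ⟨Finset.mem_univ _, ?_⟩
  obtain ⟨-, p, hp⟩ := hσ
  exact ⟨_, (Finset.mem_filter.1 hp).2⟩

theorem redG_solves [∀ σ, AddCommGroup (Γ σ)] {t : ℕ} {δ : ℝ}
    (h : 2 * k ≤ n ∧ n ≤ 2 * b0 ∧ b0 + u + k ≤ n)
    {Ω : Type} [Fintype Ω] (p : Ω → ℝ) (D : Ω → RSketchDS n c d Γ Δ)
    (hD : RSketchSolves p D t δ) :
    ESketchSolves n p (fun ω => redG h (D ω)) t δ := by
  classical
  obtain ⟨hp, hp1, hcor⟩ := hD
  refine ⟨hp, hp1, ?_⟩
  intro X Y hXY i j
  refine (hcor (GX h X ∪ GY h Y) ((card_G h X Y).trans hXY)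
    (vS h i) (vT h j)).trans ?_
  refine Finset.sum_le_sum_of_subset_of_nonneg ?_ fun ω _ _ => hp ω
  intro ω hω
  rw [Finset.mem_filter] at hω ⊢
  have h1 : Reach (GX h X ∪ GY h Y) (vS h i) (vT h j) ↔
      (X i ∩ Y j).Nonempty := by
    rw [reach_iff]
    constructor
    · rintro ((h5 | h5) | h5 | ⟨i', j', h7, h8, h9⟩)
      · exact absurd h5 (vST h _ _)
      · obtain ⟨i', e', _, he⟩ := (mem_GX h).1 h5
        rw [Prod.mk.injEq] at he
        exact absurd he.2.symm (vMT h _ _)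
      · obtain ⟨i', e', _, he⟩ := (mem_GY h).1 h5
        rw [Prod.mk.injEq] at he
        exact absurd he.1 (vSM h _ _)
      · rw [vS_inj h h7, vT_inj h h8]
        exact h9
    · intro h7
      exact Or.inr (Or.inr ⟨i, j, rfl, rfl, h7⟩)
  refine ⟨Finset.mem_univ _, ?_, ?_⟩
  · rw [redG_cell, ← h1]
    exact hω.2.1
  · rw [redG_cell]
    exact hω.2.2

/-- **Main theorem.** -/
theorem rfin (n t r d : ℕ) (ht : 1 ≤ t) (hr : 1 ≤ r) (δ : ℝ) (hδ : 0 < δ) (hδ2 : δ ≤ 1 / 2)
    (c s : ℕ) (Γ : Fin c → Type) [∀ σ, AddCommGroup (Γ σ)] [∀ σ, Fintype (Γ σ)] (Δ Ω : Type)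
    [Fintype Ω] (p : Ω → ℝ) (D : Ω → RSketchDS n c d Γ Δ)
    (hcard : ∀ σ, Fintype.card (Γ σ) ≤ 2 ^ r) (hs : ∀ ω, (D ω).space ≤ s)
    (hD : RSketchSolves p D t δ) :
    δ ^ 10 * (n : ℝ) ^ 2 ≤ 10 ^ 39 * (((r : ℝ) + d) * t) ^ 4 * (r * s + 1) := by
  obtain ⟨k, u, hk, hu, hmain⟩ := efin n r d t δ hr ht hδ hδ2
  have hT1 : 1 ≤ (r + d) * t := Nat.one_le_iff_ne_zero.2 (by positivity)
  have hT1' : (1 : ℝ) ≤ ((r : ℝ) + d) * t := by exact_mod_cast hT1
  have hrs : (1 : ℝ) ≤ r * s + 1 := by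
    have : (0 : ℝ) ≤ (r : ℝ) * s := by positivity
    linarith
  have hδ1 : δ ≤ 1 := by linarith
  by_cases hc : n < 4 * u + 3
  · have h1 : (n : ℝ) ≤ 4 * u + 3 := by exact_mod_cast hc.le
    have h2 : δ ^ 4 * (n : ℝ) ≤ 5 * 10 ^ 10 * (((r : ℝ) + d) * t) ^ 2 := by
      have h3 : δ ^ 4 ≤ 1 := pow_le_one₀ hδ.le hδ1
      have h4 : (1 : ℝ) ≤ (((r : ℝ) + d) * t) ^ 2 := one_le_pow₀ hT1'
      calc δ ^ 4 * (n : ℝ) ≤ δ ^ 4 * (4 * u + 3) := mul_le_mul_of_nonneg_left h1 (by positivity)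
        _ = 4 * (δ ^ 4 * u) + 3 * δ ^ 4 := by ring
        _ ≤ 4 * (10 ^ 10 * (((r : ℝ) + d) * t) ^ 2) + 3 * (((r : ℝ) + d) * t) ^ 2 := by
            have := h3.trans h4
            linarith
        _ ≤ _ := by linarith
    have h5 : δ ^ 2 ≤ 1 := pow_le_one₀ hδ.le hδ1
    calc δ ^ 10 * (n : ℝ) ^ 2 = δ ^ 2 * (δ ^ 4 * n) ^ 2 := by ring
      _ ≤ 1 * (5 * 10 ^ 10 * (((r : ℝ) + d) * t) ^ 2) ^ 2 :=
          mul_le_mul h5 (pow_le_pow_left₀ (by positivity) h2 2) (by positivity) (by norm_num)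
      _ = 25 * 10 ^ 20 * (((r : ℝ) + d) * t) ^ 4 * 1 := by ring
      _ ≤ 10 ^ 39 * (((r : ℝ) + d) * t) ^ 4 * (r * s + 1) := by
          apply mul_le_mul _ hrs (by norm_num) (by positivity)
          exact mul_le_mul_of_nonneg_right (by norm_num) (by positivity)
  · push Not at hc
    have hk2 : 400 * k ≤ n := by
      refine le_trans ?_ hk
      exact Nat.mul_le_mul_right k (Nat.le_mul_of_pos_right 400 (by omega))
    have h1 : 2 * k ≤ n := by omega
    have h2 : n ≤ 2 * ((n + 1) / 2) := by omega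
    have h3 : (n + 1) / 2 + u + k ≤ n := by omega
    exact hmain c s Γ Δ Ω p (fun ω => redG ⟨h1, h2, h3⟩ (D ω)) hcard
      (fun ω => redG_space ⟨h1, h2, h3⟩ (D ω) (hs ω)) (redG_solves ⟨h1, h2, h3⟩ p D hD)

end Pool.Agent.J4H45.GT
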