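import Pool.Agent.J4H45.GT.Stm

/-!
# (RMV) the answer for a good pair can be left out (helper45)
-/

set_option autoImplicit false

namespace Pool.Agent.J4H45.GT

open Pool.Agent.W959 Pool.Agent.W959.Ent Pool.Agent.TH457.EntD Pool.Agent.N631.LX
open Pool.Agent.N631.SX

section aux

variable {k q n : ℕ} {κ : Type} [Fintype κ] {Γ : κ → Type} [∀ σ, AddCommGroup (Γ σ)]

theorem char_if {G : Type} [AddCommGroup G] (ψ : AddChar G ℂ) (c : G) (b : Bool) :
    ψ (if b = true then c else 0) = if b = true then ψ c else 1 := by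
  cases b <;> simp

theorem char_sum {G : Type} [AddCommGroup G] (ψ : AddChar G ℂ) {ι : Type} (s : Finset ι)
    (x : ι → G) : ψ (∑ i ∈ s, x i) = ∏ i ∈ s, ψ (x i) := by
  classical
  induction s using Finset.induction_on with
  | empty => simp
  | insert a s ha ih => rw [Finset.sum_insert ha, Finset.prod_insert ha, AddChar.map_add_eq_mul, ih]

theorem prod_zval (C : ∀ σ, Fin k → Fin k → Γ σ) (f g : ∀ σ, AA n k q → Γ σ)
    (i0 j0 : Fin k) (x y : AA n k q) (θ : ∀ σ, AddChar (Γ σ) ℂ) :
    ∏ σ, θ σ (zval C f g i0 j0 x y σ) =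
      (∏ σ, θ σ (f σ x)) * (∏ σ, θ σ (g σ y)) * kerG i0 j0 (zeta C θ) x.2 y.2 := by
  have h1 : ∀ σ, θ σ (zval C f g i0 j0 x y σ) = θ σ (f σ x) * θ σ (g σ y) *
      ∏ i, ∏ j, (if zz i0 j0 x.2 y.2 i j = true then θ σ (C σ i j) else 1) := by
    intro σ
    unfold zval
    rw [AddChar.map_add_eq_mul, AddChar.map_add_eq_mul, char_sum]
    congr 1
    refine Finset.prod_congr rfl fun i _ => ?_
    rw [char_sum]
    refine Finset.prod_congr rfl fun j _ => ?_
    exact char_if _ _ _
  rw [Finset.prod_congr rfl fun σ _ => h1 σ, Finset.prod_mul_distrib, Finset.prod_mul_distrib]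
  congr 1
  rw [Finset.prod_comm]
  unfold kerG
  refine Finset.prod_congr rfl fun i _ => ?_
  rw [Finset.prod_comm]
  refine Finset.prod_congr rfl fun j _ => ?_
  unfold tw zeta
  by_cases h : zz i0 j0 x.2 y.2 i j = true
  · simp [h]
  · simp [h]

end aux

theorem t_RMV (hTREE : S_TREE) (hBRN : S_BRN) (hHVY : S_HVY) : S_RMV := by
  classical
  intro k q n κ _ Γ _ _ ℓ C f g i0 j0 K ε h T o hq hcard hT hK hKq hε hε7 hgood X Y
  have hN := card_pos (k := k) hq
  have hR : 0 ≤ 7 * ε + 3 * 2 ^ h * Real.exp (-(K / 128)) := by positivity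
  by_cases hD : conj X Y = zero n
  · have h1 : ∀ (u w : U k q) σ, vval C f g i0 j0 (X, u) (Y, w) σ =
        zval C f g i0 j0 (X, u) (Y, w) σ := by
      intro u w σ
      unfold vval
      rw [if_pos hD, add_zero]
    simp only [h1, sub_self, Finset.sum_const_zero, mul_zero, abs_zero]
    exact hR
  · have h1 : ∀ (u w : U k q) σ, vval C f g i0 j0 (X, u) (Y, w) σ =
        zval C f g i0 j0 (X, u) (Y, w) σ + C σ i0 j0 := by
      intro u w σ
      unfold vval
      rw [if_neg hD]
    obtain ⟨M, hM⟩ : ∃ M : ℕ, M = ∏ σ, Fintype.card (Γ σ) := ⟨_, rfl⟩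
    have hM1 : 1 ≤ M := by
      rw [hM]
      exact Nat.one_le_iff_ne_zero.2 (Finset.prod_ne_zero_iff.2 fun σ _ => Fintype.card_ne_zero)
    obtain ⟨a, ha1, ha2⟩ := hBRN M ε hM1 hε (by linarith)
    obtain ⟨c0, hc0⟩ : ∃ c0 : ℝ, c0 = ((Fintype.card (U k q) : ℝ)⁻¹) ^ 2 := ⟨_, rfl⟩
    have hc00 : 0 ≤ c0 := by rw [hc0]; positivity
    have hc01 : c0 * (Fintype.card (U k q) : ℝ) ^ 2 = 1 := by
      rw [hc0]
      field_simp
    let cf : Bool ⊕ Fin M → ℂ := fun s => match s with
      | Sum.inl true => 1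
      | Sum.inl false => -1
      | Sum.inr j => a j
    let ml : Bool ⊕ Fin M → ℕ := fun s => match s with
      | Sum.inl true => 1
      | Sum.inl false => 0
      | Sum.inr j => (j : ℕ)
    let Zt : U k q → U k q → ℕ → ∀ σ, Γ σ := fun u w j σ =>
      zval C f g i0 j0 (X, u) (Y, w) σ + j • C σ i0 j0
    let A : U k q → U k q → ℕ → ℂ := fun u w j => if T.out (Zt u w j) = o then 1 else 0
    have hA1 : ∀ u w j, ‖A u w j‖ ≤ 1 := by
      intro u w j
      simp only [A]
      split_ifs <;> simp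
    have key := hTREE κ Γ ℓ ((Bool ⊕ Fin M) × (U k q × U k q))
      (fun ω => (c0 : ℂ) * cf ω.1) (fun ω => Zt ω.2.1 ω.2.2 (ml ω.1))
      (3 * Real.exp (-(K / 128))) h T o hcard hT (by
        intro θ
        obtain ⟨ζ, hζ⟩ : ∃ ζ, ζ = zeta C θ := ⟨_, rfl⟩
        have hunit : ∀ i j, ‖ζ i j‖ = 1 := by
          intro i j
          rw [hζ]
          unfold zeta
          rw [norm_prod]
          exact Finset.prod_eq_one fun σ _ => AddChar.norm_apply _ _
        have hpow : ζ i0 j0 ^ M = 1 := by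
          rw [hζ]
          unfold zeta
          rw [← Finset.prod_pow]
          refine Finset.prod_eq_one fun σ _ => ?_
          rw [← AddChar.map_nsmul_eq_pow]
          have h2 : M • C σ i0 j0 = 0 := by
            have h3 : Fintype.card (Γ σ) ∣ M := by
              rw [hM]
              exact Finset.dvd_prod_of_mem _ (Finset.mem_univ σ)
            obtain ⟨e, he⟩ := h3
            rw [he, mul_nsmul, card_nsmul_eq_zero, smul_zero]
          rw [h2, AddChar.map_zero_eq_one]
        have e1 : ∀ (s : Bool ⊕ Fin M) (u w : U k q), ∏ σ, θ σ (Zt u w (ml s) σ) =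
            (∏ σ, θ σ (f σ (X, u))) * (∏ σ, θ σ (g σ (Y, w))) * kerG i0 j0 ζ u w *
              ζ i0 j0 ^ ml s := by
          intro s u w
          simp only [Zt, AddChar.map_add_eq_mul]
          rw [Finset.prod_mul_distrib, prod_zval, ← hζ]
          congr 1
          rw [hζ]
          unfold zeta
          rw [← Finset.prod_pow]
          refine Finset.prod_congr rfl fun σ _ => ?_
          rw [AddChar.map_nsmul_eq_pow]
        have e2 : (∑ ω : (Bool ⊕ Fin M) × (U k q × U k q), (c0 : ℂ) * cf ω.1 *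
            ∏ σ, θ σ (Zt ω.2.1 ω.2.2 (ml ω.1) σ)) =
            (∑ s, cf s * ζ i0 j0 ^ ml s) * ((c0 : ℂ) * ∑ u : U k q, ∑ w : U k q,
              (∏ σ, θ σ (f σ (X, u))) * (∏ σ, θ σ (g σ (Y, w))) * kerG i0 j0 ζ u w) := by
          rw [Fintype.sum_prod_type, Finset.sum_mul]
          refine Finset.sum_congr rfl fun s _ => ?_
          rw [Fintype.sum_prod_type, Finset.mul_sum, Finset.mul_sum]
          refine Finset.sum_congr rfl fun u _ => ?_
          rw [Finset.mul_sum, Finset.mul_sum]
          refine Finset.sum_congr rfl fun w _ => ?_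
          rw [e1]
          ring
        rw [e2]
        have e3 : (∑ s, cf s * ζ i0 j0 ^ ml s) =
            ζ i0 j0 - 1 + ∑ j, a j * ζ i0 j0 ^ (j : ℕ) := by
          rw [Fintype.sum_sum_type, Fintype.sum_bool]
          simp only [cf, ml, pow_one, pow_zero, one_mul, mul_one]
          ring
        rw [e3]
        by_cases hl : massC (fun i j => ‖1 - ζ i j‖ ^ 2) j0 < K ∧
            massR (fun i j => ‖1 - ζ i j‖ ^ 2) i0 < K
        · have h2 : ‖1 - ζ i0 j0‖ ≤ ε := by
            rw [hζ] at hl ⊢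
            exact hgood θ hl.1 hl.2
          rw [ha2 _ hpow h2, show ζ i0 j0 - 1 + (1 - ζ i0 j0) = 0 by ring, zero_mul, norm_zero]
          positivity
        · have hl' : K ≤ massC (fun i j => ‖1 - ζ i j‖ ^ 2) j0 ∨
              K ≤ massR (fun i j => ‖1 - ζ i j‖ ^ 2) i0 := by
            by_contra hc
            push Not at hc
            exact hl hc
          have h2 := hHVY k q i0 j0 ζ K hq hunit hK hKq hl'
            (fun u => ∏ σ, θ σ (f σ (X, u))) (fun w => ∏ σ, θ σ (g σ (Y, w)))
            (fun u => by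
              rw [norm_prod]
              exact (Finset.prod_eq_one fun σ _ => AddChar.norm_apply _ _).le)
            (fun w => by
              rw [norm_prod]
              exact (Finset.prod_eq_one fun σ _ => AddChar.norm_apply _ _).le)
          rw [norm_mul, norm_mul]
          have h3 : ‖ζ i0 j0 - 1 + ∑ j, a j * ζ i0 j0 ^ (j : ℕ)‖ ≤ 3 := by
            refine (norm_add_le _ _).trans ?_
            have h4 : ‖ζ i0 j0 - 1‖ ≤ 2 := by
              refine (norm_sub_le _ _).trans ?_
              rw [hunit, norm_one]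
              norm_num
            have h5 : ‖∑ j, a j * ζ i0 j0 ^ (j : ℕ)‖ ≤ 7 * ε := by
              refine (norm_sum_le _ _).trans (le_trans (le_of_eq ?_) ha1)
              refine Finset.sum_congr rfl fun j _ => ?_
              rw [norm_mul, norm_pow, hunit, one_pow, mul_one]
            linarith
          have h4 : ‖(c0 : ℂ)‖ = c0 := by
            rw [Complex.norm_real, Real.norm_eq_abs, abs_of_nonneg hc00]
          rw [h4]
          have h5 : c0 * ‖∑ u : U k q, ∑ w : U k q,
              (∏ σ, θ σ (f σ (X, u))) * (∏ σ, θ σ (g σ (Y, w))) * kerG i0 j0 ζ u w‖ ≤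
              Real.exp (-(K / 128)) := by
            calc _ ≤ c0 * (Real.exp (-(K / 128)) * (Fintype.card (U k q) : ℝ) ^ 2) :=
                  mul_le_mul_of_nonneg_left h2 hc00
              _ = Real.exp (-(K / 128)) * (c0 * (Fintype.card (U k q) : ℝ) ^ 2) := by ring
              _ = _ := by rw [hc01, mul_one]
          exact mul_le_mul h3 h5 (mul_nonneg hc00 (norm_nonneg _)) (by norm_num))
    -- the sum
    have e4 : (∑ ω : (Bool ⊕ Fin M) × (U k q × U k q), (c0 : ℂ) * cf ω.1 *
        (if T.out (Zt ω.2.1 ω.2.2 (ml ω.1)) = o then 1 else 0)) =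
        (c0 : ℂ) * (∑ u : U k q, ∑ w : U k q, (A u w 1 - A u w 0)) +
          ∑ j : Fin M, a j * ((c0 : ℂ) * ∑ u : U k q, ∑ w : U k q, A u w (j : ℕ)) := by
      rw [Fintype.sum_prod_type, Fintype.sum_sum_type, Fintype.sum_bool]
      have e5 : ∀ s : Bool ⊕ Fin M, ∑ v : U k q × U k q, (c0 : ℂ) * cf s *
          (if T.out (Zt v.1 v.2 (ml s)) = o then 1 else 0) =
          cf s * ((c0 : ℂ) * ∑ u : U k q, ∑ w : U k q, A u w (ml s)) := by
        intro s
        rw [Fintype.sum_prod_type, Finset.mul_sum, Finset.mul_sum]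
        refine Finset.sum_congr rfl fun u _ => ?_
        rw [Finset.mul_sum, Finset.mul_sum]
        refine Finset.sum_congr rfl fun w _ => ?_
        simp only [A]
        ring
      simp only [e5]
      congr 1
      simp only [cf, ml, Finset.sum_sub_distrib]
      ring
    rw [e4] at key
    have h6 : ∀ j : ℕ, ‖(c0 : ℂ) * ∑ u : U k q, ∑ w : U k q, A u w j‖ ≤ 1 := by
      intro j
      rw [norm_mul, Complex.norm_real, Real.norm_eq_abs, abs_of_nonneg hc00]
      have h7 : ‖∑ u : U k q, ∑ w : U k q, A u w j‖ ≤ (Fintype.card (U k q) : ℝ) ^ 2 := by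
        refine (norm_sum_le _ _).trans ?_
        calc ∑ u : U k q, ‖∑ w : U k q, A u w j‖ ≤ ∑ _u : U k q, (Fintype.card (U k q) : ℝ) := by
              refine Finset.sum_le_sum fun u _ => ?_
              refine (norm_sum_le _ _).trans ?_
              calc ∑ w : U k q, ‖A u w j‖ ≤ ∑ _w : U k q, (1 : ℝ) :=
                    Finset.sum_le_sum fun w _ => hA1 u w j
                _ = _ := by simp
          _ = _ := by
              rw [Finset.sum_const, Finset.card_univ, nsmul_eq_mul]
              ring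
      calc c0 * ‖∑ u : U k q, ∑ w : U k q, A u w j‖ ≤ c0 * (Fintype.card (U k q) : ℝ) ^ 2 :=
            mul_le_mul_of_nonneg_left h7 hc00
        _ = 1 := hc01
    have h8 : ‖∑ j : Fin M, a j * ((c0 : ℂ) * ∑ u : U k q, ∑ w : U k q, A u w (j : ℕ))‖ ≤
        7 * ε := by
      refine (norm_sum_le _ _).trans (le_trans ?_ ha1)
      refine Finset.sum_le_sum fun j _ => ?_
      rw [norm_mul]
      exact mul_le_of_le_one_right (norm_nonneg _) (h6 j)
    have h9 : ‖(c0 : ℂ) * (∑ u : U k q, ∑ w : U k q, (A u w 1 - A u w 0))‖ ≤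
        7 * ε + 3 * 2 ^ h * Real.exp (-(K / 128)) := by
      have h10 := norm_sub_le ((c0 : ℂ) * (∑ u : U k q, ∑ w : U k q, (A u w 1 - A u w 0)) +
          ∑ j : Fin M, a j * ((c0 : ℂ) * ∑ u : U k q, ∑ w : U k q, A u w (j : ℕ)))
        (∑ j : Fin M, a j * ((c0 : ℂ) * ∑ u : U k q, ∑ w : U k q, A u w (j : ℕ)))
      rw [add_sub_cancel_right] at h10
      calc _ ≤ _ := h10
        _ ≤ 2 ^ h * (3 * Real.exp (-(K / 128))) + 7 * ε := add_le_add key h8
        _ = _ := by ring
    have e6 : ((c0 * ∑ u : U k q, ∑ w : U k q,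
        (ind (T.out (fun σ => vval C f g i0 j0 (X, u) (Y, w) σ) = o) -
          ind (T.out (fun σ => zval C f g i0 j0 (X, u) (Y, w) σ) = o)) : ℝ) : ℂ) =
        (c0 : ℂ) * (∑ u : U k q, ∑ w : U k q, (A u w 1 - A u w 0)) := by
      rw [Complex.ofReal_mul, Complex.ofReal_sum]
      congr 1
      refine Finset.sum_congr rfl fun u _ => ?_
      rw [Complex.ofReal_sum]
      refine Finset.sum_congr rfl fun w _ => ?_
      rw [Complex.ofReal_sub]
      have e7 : ∀ P : Prop, [Decidable P] → ((ind P : ℝ) : ℂ) = if P then 1 else 0 := by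
        intro P _
        by_cases hP : P
        · rw [ind_true hP, if_pos hP, Complex.ofReal_one]
        · rw [ind_false hP, if_neg hP, Complex.ofReal_zero]
      rw [e7, e7]
      simp only [A, Zt, h1, one_smul, zero_smul, add_zero]
    rw [← hc0]
    calc |c0 * ∑ u : U k q, ∑ w : U k q,
        (ind (T.out (fun σ => vval C f g i0 j0 (X, u) (Y, w) σ) = o) -
          ind (T.out (fun σ => zval C f g i0 j0 (X, u) (Y, w) σ) = o))| =
        ‖((c0 * ∑ u : U k q, ∑ w : U k q,
        (ind (T.out (fun σ => vval C f g i0 j0 (X, u) (Y, w) σ) = o) -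
          ind (T.out (fun σ => zval C f g i0 j0 (X, u) (Y, w) σ) = o)) : ℝ) : ℂ)‖ := by
          rw [Complex.norm_real, Real.norm_eq_abs]
      _ ≤ _ := by
          rw [e6]
          exact h9

end Pool.Agent.J4H45.GT
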