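import Pool.Agent.J4H45.GT.Stm0
import Pool.Agent.N631.SX.Main2
import Pool.Agent.N631.SX.CDefs

/-!
# Tables over finite abelian groups for 3SUM-Indexing: statements (helper45)

Project GT (MP_e016b3_lc).
-/

set_option autoImplicit false

namespace Pool.Agent.J4H45.GT

open Pool.Agent.W959 Pool.Agent.W959.Ent Pool.Agent.TH457.EntD Pool.Agent.N631.LX
open Pool.Agent.N631.SX

/-! ### (HV1), (HV2), (HVC), (HVY) heavy combinations have a small correlation -/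

/-- the product of the numbers `ζ i j` over all pairs of sets which meet -/
noncomputable def kerG {k q : ℕ} (i0 j0 : Fin k) (ζ : Fin k → Fin k → ℂ) (u w : U k q) : ℂ :=
  ∏ i, ∏ j, tw (ζ i j) (zz i0 j0 u w i j)

/-- Cauchy-Schwarz for fixed positions `a`, and a product over the columns in `J` -/
def S_HV1 : Prop := ∀ (k q : ℕ) (i0 j0 : Fin k) (ζ : Fin k → Fin k → ℂ) (a : Fin k → Fin q)
  (J : Finset (Fin k)), 1 ≤ q → (∀ i j, ‖ζ i j‖ = 1) → j0 ∉ J →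
  ∀ (F : (Fin k → Option (Fin q) → Bool) → ℂ) (G : U k q → ℂ), (∀ x, ‖F x‖ ≤ 1) →
  (∀ w, ‖G w‖ ≤ 1) →
  ‖∑ x : Fin k → Option (Fin q) → Bool, ∑ w : U k q,
    F x * G w * kerG i0 j0 ζ (fun i => (x i, a i)) w‖ ^ 2 ≤
  (Fintype.card (U k q) : ℝ) ^ 2 * ∑ x : Fin k → Option (Fin q) → Bool,
    ∑ x' : Fin k → Option (Fin q) → Bool, ∏ j ∈ J, ((1 / (q : ℝ)) * ∑ β : Fin q,
      YY (fun i => ζ i j) (fun i => if i = i0 then none else some (a i))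
        (fun i => x i (some β)) (fun i => x' i (some β)))

/-- independence of the positions `β`; uses (COL) -/
def S_HV2 : Prop := ∀ (k q : ℕ) (ζ : Fin k → Fin k → ℂ) (o : Fin k → Option (Fin q))
  (J : Finset (Fin k)), 1 ≤ q → (∀ i j, ‖ζ i j‖ = 1) →
  32 * ∑ j ∈ J, min 1 (∑ i, ‖1 - ζ i j‖ ^ 2) ≤ q →
  ∑ x : Fin k → Option (Fin q) → Bool, ∑ x' : Fin k → Option (Fin q) → Bool,
    ∏ j ∈ J, ((1 / (q : ℝ)) * ∑ β : Fin q,
      YY (fun i => ζ i j) o (fun i => x i (some β)) (fun i => x' i (some β))) ≤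
  Real.exp (-((∑ j ∈ J, min 1 (∑ i, ‖1 - ζ i j‖ ^ 2)) / 64)) *
    (Fintype.card (Fin k → Option (Fin q) → Bool) : ℝ) ^ 2

/-- heavy columns -/
def S_HVC : Prop := ∀ (k q : ℕ) (i0 j0 : Fin k) (ζ : Fin k → Fin k → ℂ) (K : ℝ), 1 ≤ q →
  (∀ i j, ‖ζ i j‖ = 1) → 0 ≤ K → 32 * (K + 1) ≤ q →
  K ≤ massC (fun i j => ‖1 - ζ i j‖ ^ 2) j0 →
  ∀ F G : U k q → ℂ, (∀ u, ‖F u‖ ≤ 1) → (∀ w, ‖G w‖ ≤ 1) →
  ‖∑ u : U k q, ∑ w : U k q, F u * G w * kerG i0 j0 ζ u w‖ ≤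
    Real.exp (-(K / 128)) * (Fintype.card (U k q) : ℝ) ^ 2

/-- heavy columns or heavy rows -/
def S_HVY : Prop := ∀ (k q : ℕ) (i0 j0 : Fin k) (ζ : Fin k → Fin k → ℂ) (K : ℝ), 1 ≤ q →
  (∀ i j, ‖ζ i j‖ = 1) → 0 ≤ K → 32 * (K + 1) ≤ q →
  (K ≤ massC (fun i j => ‖1 - ζ i j‖ ^ 2) j0 ∨ K ≤ massR (fun i j => ‖1 - ζ i j‖ ^ 2) i0) →
  ∀ F G : U k q → ℂ, (∀ u, ‖F u‖ ≤ 1) → (∀ w, ‖G w‖ ≤ 1) →
  ‖∑ u : U k q, ∑ w : U k q, F u * G w * kerG i0 j0 ζ u w‖ ≤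
    Real.exp (-(K / 128)) * (Fintype.card (U k q) : ℝ) ^ 2

/-! ### (RECT) the corruption bound for a tree whose cells are sums of two one-sided functions -/

def S_RECT : Prop := ∀ (m n : ℕ) (κ : Type) (Γ : κ → Type) [∀ σ, AddCommGroup (Γ σ)]
  [∀ σ, Fintype (Γ σ)] (ℓ : κ → ℕ) (h : ℕ) (T : GTree Γ)
  (f g : ∀ σ, (Fin n → Bool) → Γ σ) (α β : ℝ), 10 ≤ m →
  (∀ σ, Fintype.card (Γ σ) ≤ 2 ^ ℓ σ) → T.Within ℓ h → 0 ≤ α → 0 ≤ β →
  (∀ P : ℝ, 0 ≤ P → P ^ (1 / (1 + 1 / (m : ℝ))) ≤ α * P + β) →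
  ex2 (1 / (m : ℝ)) n (fun X Y => ind (T.out (fun σ => f σ X + g σ Y) = false) *
    ind (conj X Y = zero n)) ≤
  (1 - 1 / (22 * (m : ℝ) ^ 2)) ^ n *
    (α * ex2 (1 / (m : ℝ)) n (fun X Y => ind (T.out (fun σ => f σ X + g σ Y) = false)) +
      β * 2 ^ (2 * h))

/-! ### memories -/

section mem

variable {k q n : ℕ} {κ : Type} {Γ : κ → Type} [∀ σ, AddCommGroup (Γ σ)]

open Classical in
/-- the contents of a cell if the answer for the pair `(i0, j0)` is left out -/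
noncomputable def zval (C : ∀ σ, Fin k → Fin k → Γ σ) (f g : ∀ σ, AA n k q → Γ σ)
    (i0 j0 : Fin k) (x y : AA n k q) (σ : κ) : Γ σ :=
  f σ x + g σ y + ∑ i, ∑ j, if zz i0 j0 x.2 y.2 i j = true then C σ i j else 0

open Classical in
/-- the contents of a cell -/
noncomputable def vval (C : ∀ σ, Fin k → Fin k → Γ σ) (f g : ∀ σ, AA n k q → Γ σ)
    (i0 j0 : Fin k) (x y : AA n k q) (σ : κ) : Γ σ :=
  zval C f g i0 j0 x y σ + if conj x.1 y.1 = zero n then 0 else C σ i0 j0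

/-- the value of the product of the characters `θ` on the coefficients of a pair -/
noncomputable def zeta [Fintype κ] (C : ∀ σ, Fin k → Fin k → Γ σ)
    (θ : ∀ σ, AddChar (Γ σ) ℂ) (i j : Fin k) : ℂ := ∏ σ, θ σ (C σ i j)

/-- the pair is good: every light product of characters is nearly trivial on it -/
def Good [Fintype κ] (C : ∀ σ, Fin k → Fin k → Γ σ) (K ε : ℝ) (i0 j0 : Fin k) : Prop :=
  ∀ θ : ∀ σ, AddChar (Γ σ) ℂ, massC (fun i j => ‖1 - zeta C θ i j‖ ^ 2) j0 < K →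
    massR (fun i j => ‖1 - zeta C θ i j‖ ^ 2) i0 < K → ‖1 - zeta C θ i0 j0‖ ≤ ε

end mem

/-! ### (RMV) the answer for a good pair can be left out -/

def S_RMV : Prop := ∀ (k q n : ℕ) (κ : Type) [Fintype κ] (Γ : κ → Type)
  [∀ σ, AddCommGroup (Γ σ)] [∀ σ, Fintype (Γ σ)] (ℓ : κ → ℕ)
  (C : ∀ σ, Fin k → Fin k → Γ σ) (f g : ∀ σ, AA n k q → Γ σ) (i0 j0 : Fin k) (K ε : ℝ) (h : ℕ)
  (T : GTree Γ) (o : Bool), 1 ≤ q → (∀ σ, Fintype.card (Γ σ) ≤ 2 ^ ℓ σ) → T.Within ℓ h →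
  0 ≤ K → 32 * (K + 1) ≤ q → 0 < ε → ε ≤ 1 / 7 → Good C K ε i0 j0 →
  ∀ X Y : Fin n → Bool,
    |((Fintype.card (U k q) : ℝ)⁻¹) ^ 2 * ∑ u : U k q, ∑ w : U k q,
      (ind (T.out (fun σ => vval C f g i0 j0 (X, u) (Y, w) σ) = o) -
        ind (T.out (fun σ => zval C f g i0 j0 (X, u) (Y, w) σ) = o))| ≤
    7 * ε + 3 * 2 ^ h * Real.exp (-(K / 128))

/-! ### (PAIR) the error for a good pair -/

def S_PAIR : Prop := ∀ (k q n m h : ℕ) (κ : Type) [Fintype κ] (Γ : κ → Type)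
  [∀ σ, AddCommGroup (Γ σ)] [∀ σ, Fintype (Γ σ)] (ℓ : κ → ℕ)
  (C : ∀ σ, Fin k → Fin k → Γ σ) (f g : ∀ σ, AA n k q → Γ σ) (i0 j0 : Fin k)
  (T : GTree Γ), 1 ≤ h → m = 1400 * h → n = m ^ 2 → q = 100000 * h →
  (∀ σ, Fintype.card (Γ σ) ≤ 2 ^ ℓ σ) → T.Within ℓ h →
  Good C (128 * ((h : ℝ) + 12)) (1 / 20000) i0 j0 →
  (1 / 80 : ℝ) ≤ EE (1 / (m : ℝ)) (fun x y => ind (¬ (
    T.out (fun σ => vval C f g i0 j0 x y σ) = true ↔ ¬ conj x.1 y.1 = zero n)))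

/-! ### (BAD) few pairs are not good; uses (CNT) and (LGE) -/

def S_BAD : Prop := ∀ (k : ℕ) (κ : Type) [Fintype κ] (Γ : κ → Type)
  [∀ σ, AddCommGroup (Γ σ)] [∀ σ, Fintype (Γ σ)] (ℓ : κ → ℕ)
  (C : ∀ σ, Fin k → Fin k → Γ σ) (F : Finset κ) (K ε : ℝ) (B : Finset (Fin k × Fin k)),
  (∀ σ, Fintype.card (Γ σ) ≤ 2 ^ ℓ σ) → (∀ σ, σ ∉ F → ∀ i j, C σ i j = 0) →
  0 ≤ K → 0 < ε → ε ≤ 1 → (∀ p ∈ B, ¬ Good C K ε p.1 p.2) →
  (B.card : ℝ) ≤ 1 + 384 * (K + 1) ^ 2 * (∑ σ ∈ F, ℓ σ : ℕ) / ε ^ 2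

/-! ### (DEC) every answer is constant, one-sided or the answer for a pair -/

def S_DEC : Prop := ∀ (k v ρ : ℕ), 1 ≤ ρ → v ≤ ρ * ρ → 2 ≤ v → ∀ z : ℕ,
  (∃ i j : Fin k, ∀ S T : Fin k → Fin v → Bool, ans2 ρ S T z ↔ meets S T i j) ∨
  (∃ P : (Fin k → Fin v → Bool) → Prop, ∀ S T : Fin k → Fin v → Bool, ans2 ρ S T z ↔ P S) ∨
  (∃ P : (Fin k → Fin v → Bool) → Prop, ∀ S T : Fin k → Fin v → Bool, ans2 ρ S T z ↔ P T)

/-! ### the model -/

/-- A data structure for two arrays of `n` integers. The cells are the elements of `κ`, and the cell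
`σ` contains an element of the abelian group `Γ σ`: the sum of the elements `a σ z` over all queries
`z` in `Q σ` whose answer is yes, plus an arbitrary function `f σ` of the first array, plus an
arbitrary function `g σ` of the second array. The queries are adaptive. -/
structure GroupDS (n : ℕ) {κ : Type} (Γ : κ → Type) where
  Q : κ → Finset ℕ
  a : ∀ σ, ℕ → Γ σ
  f : ∀ σ, (Fin n → ℕ) → Γ σ
  g : ∀ σ, (Fin n → ℕ) → Γ σ
  query : ℕ → GTree Γ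

open Classical in
/-- the contents of the cell `σ` -/
noncomputable def GroupDS.cell {n : ℕ} {κ : Type} {Γ : κ → Type} [∀ σ, AddCommGroup (Γ σ)]
    (D : GroupDS n Γ) (A B : Fin n → ℕ) (σ : κ) : Γ σ :=
  (∑ z ∈ D.Q σ with ∃ i j, A i + B j = z, D.a σ z) + D.f σ A + D.g σ B

open Classical in
/-- the total number of bits of the cells in which answers enter -/
noncomputable def GroupDS.space {n : ℕ} {κ : Type} [Fintype κ] {Γ : κ → Type}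
    (D : GroupDS n Γ) (ℓ : κ → ℕ) : ℕ :=
  ∑ σ with (D.Q σ).Nonempty, ℓ σ

open Classical in
/-- For all arrays of `n` integers from `{0, …, n ^ 3}` and all `z`, with probability at least
`1 / 2 + δ` the random data structure `D` (probabilities `p`) decides whether `z` is the sum of an
element of the first array and an element of the second array, correctly and reading at most `h`
bits. -/
def GroupSolves {n : ℕ} {κ : Type} {Γ : κ → Type} [∀ σ, AddCommGroup (Γ σ)] {Ω : Type}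
    [Fintype Ω] (p : Ω → ℝ) (D : Ω → GroupDS n Γ) (ℓ : κ → ℕ) (h : ℕ) (δ : ℝ) : Prop :=
  (∀ ω, 0 ≤ p ω) ∧ ∑ ω, p ω = 1 ∧
    ∀ A B : Fin n → ℕ, (∀ i, A i ≤ n ^ 3) → (∀ i, B i ≤ n ^ 3) → ∀ z : ℕ,
      1 / 2 + δ ≤ ∑ ω with (((D ω).query z).out ((D ω).cell A B) = true ↔ ∃ i j, A i + B j = z) ∧
        ((D ω).query z).cost ℓ ((D ω).cell A B) ≤ h, p ω

/-! ### (SER) the error of one data structure, summed over all pairs; uses (PAIR), (BAD), (DEC) -/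

open Classical in
/-- cut the tree where the weight becomes greater than `h` -/
noncomputable def GTree.cut {κ : Type} {Γ : κ → Type} (ℓ : κ → ℕ) : GTree Γ → ℕ → GTree Γ
  | GTree.answer o, _ => GTree.answer o
  | GTree.probe σ next, h =>
      if ℓ σ ≤ h then GTree.probe σ (fun v => (next v).cut ℓ (h - ℓ σ)) else GTree.answer false

def S_SER : Prop := ∀ (N k q n m ρ h S : ℕ) (κ : Type) [Fintype κ] (Γ : κ → Type)
  [∀ σ, AddCommGroup (Γ σ)] [∀ σ, Fintype (Γ σ)] (ℓ : κ → ℕ) (D : GroupDS N Γ), 1 ≤ h →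
  m = 1400 * h → n = m ^ 2 → q = 100000 * h → 1 ≤ ρ → vv n q ≤ ρ * ρ → 2 ≤ vv n q →
  2 * (k * ρ) + (n + k * (q + 2)) ≤ N → (∀ σ, Fintype.card (Γ σ) ≤ 2 ^ ℓ σ) →
  D.space ℓ ≤ S →
  ((k : ℝ) ^ 2 - (1 + 10 ^ 18 * (h : ℝ) ^ 2 * S)) * (1 / 80) ≤ ∑ p : Fin k × Fin k,
    EE (q := q) (1 / (m : ℝ)) (fun x y => ind (¬ (((D.query (pos2 n q k ρ p)).cut ℓ h).out
      (D.cell (arrA2 N ρ p.1 x) (arrB2 N ρ p.2 y)) = true ↔ ¬ conj x.1 y.1 = zero n)))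

/-! ### (MNG) the main theorem for the advantage 49 / 100; uses (SER) -/

def S_MNG : Prop := ∀ (N h S : ℕ) (κ : Type) [Fintype κ] (Γ : κ → Type)
  [∀ σ, AddCommGroup (Γ σ)] [∀ σ, Fintype (Γ σ)] (ℓ : κ → ℕ) (Ω : Type) [Fintype Ω]
  (p : Ω → ℝ) (D : Ω → GroupDS N Γ), 1 ≤ h → (∀ σ, Fintype.card (Γ σ) ≤ 2 ^ ℓ σ) →
  (∀ ω, (D ω).space ℓ ≤ S) → GroupSolves p D ℓ h (49 / 100) →
  (N : ℝ) ^ 2 ≤ 10 ^ 31 * (h : ℝ) ^ 4 * ((S : ℝ) + 1)

/-! ### (AMG) amplification of the advantage -/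

def S_AMG : Prop := ∀ (N h r S : ℕ) (κ : Type) [Fintype κ] (Γ : κ → Type)
  [∀ σ, AddCommGroup (Γ σ)] (ℓ : κ → ℕ) (Ω : Type) [Fintype Ω]
  (p : Ω → ℝ) (D : Ω → GroupDS N Γ) (δ : ℝ), 0 < δ → 25 / δ ^ 2 ≤ (r : ℝ) →
  (∀ ω, (D ω).space ℓ ≤ S) → GroupSolves p D ℓ h δ →
  ∃ D' : (Fin r → Ω) → GroupDS N (fun c : Fin r × κ => Γ c.2),
    (∀ ω, (D' ω).space (fun c => ℓ c.2) ≤ r * S) ∧
    GroupSolves (fun ω : Fin r → Ω => ∏ l, p (ω l)) D' (fun c => ℓ c.2) (r * h) (49 / 100)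

/-! ### (MND) the main theorem for any advantage; uses (MNG), (AMG) -/

def S_MND : Prop := ∀ (N h S : ℕ) (κ : Type) [Fintype κ] (Γ : κ → Type)
  [∀ σ, AddCommGroup (Γ σ)] [∀ σ, Fintype (Γ σ)] (ℓ : κ → ℕ) (Ω : Type) [Fintype Ω]
  (p : Ω → ℝ) (D : Ω → GroupDS N Γ) (δ : ℝ), 1 ≤ h → 0 < δ → δ ≤ 1 / 2 →
  (∀ σ, Fintype.card (Γ σ) ≤ 2 ^ ℓ σ) → (∀ ω, (D ω).space ℓ ≤ S) → GroupSolves p D ℓ h δ →
  δ ^ 10 * (N : ℝ) ^ 2 ≤ 10 ^ 39 * (h : ℝ) ^ 4 * ((S : ℝ) + 1)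

/-! ### (SIM) cells with arbitrary contents made from a group element and from a protocol -/

/-- A data structure for two arrays of `n` integers with `c` cells. The contents of the cell `σ` are
an arbitrary function `make σ` of an element of the finite abelian group `Γ σ` and of the `d` bits of
a protocol of two players who know one of the arrays each. The group element is the sum of the
elements `a σ z` over all queries `z` in `Q σ` whose answer is yes, plus an arbitrary function `f σ`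
of the first array, plus an arbitrary function `g σ` of the second array. The queries are
adaptive. -/
structure SketchDS (n c d : ℕ) (Γ : Fin c → Type) (Δ : Type) where
  Q : Fin c → Finset ℕ
  a : ∀ σ, ℕ → Γ σ
  f : ∀ σ, (Fin n → ℕ) → Γ σ
  g : ∀ σ, (Fin n → ℕ) → Γ σ
  talk : Fin c → Talk (Fin n → ℕ) (Fin n → ℕ)
  make : ∀ σ, Γ σ → List Bool → Δ
  query : ℕ → CTree c Δ

open Classical in
/-- the contents of the cell `σ` -/
noncomputable def SketchDS.cell {n c d : ℕ} {Γ : Fin c → Type} [∀ σ, AddCommGroup (Γ σ)]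
    {Δ : Type} (D : SketchDS n c d Γ Δ) (A B : Fin n → ℕ) (σ : Fin c) : Δ :=
  D.make σ ((∑ z ∈ D.Q σ with ∃ i j, A i + B j = z, D.a σ z) + D.f σ A + D.g σ B)
    ((D.talk σ).run A B d)

open Classical in
/-- the number of cells in which answers enter -/
noncomputable def SketchDS.space {n c d : ℕ} {Γ : Fin c → Type} {Δ : Type}
    (D : SketchDS n c d Γ Δ) : ℕ :=
  (Finset.univ.filter fun σ : Fin c => (D.Q σ).Nonempty).card

open Classical in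
/-- For all arrays of `n` integers from `{0, …, n ^ 3}` and all `z`, with probability at least
`1 / 2 + δ` the random data structure `D` (probabilities `p`) decides whether `z` is the sum of an
element of the first array and an element of the second array, correctly and reading at most `t`
cells. -/
def SketchSolves {n c d : ℕ} {Γ : Fin c → Type} [∀ σ, AddCommGroup (Γ σ)] {Δ : Type}
    {Ω : Type} [Fintype Ω] (p : Ω → ℝ) (D : Ω → SketchDS n c d Γ Δ) (t : ℕ) (δ : ℝ) : Prop :=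
  (∀ ω, 0 ≤ p ω) ∧ ∑ ω, p ω = 1 ∧
    ∀ A B : Fin n → ℕ, (∀ i, A i ≤ n ^ 3) → (∀ i, B i ≤ n ^ 3) → ∀ z : ℕ,
      1 / 2 + δ ≤ ∑ ω with (((D ω).query z).out ((D ω).cell A B) = true ↔ ∃ i j, A i + B j = z) ∧
        ((D ω).query z).probes ((D ω).cell A B) ≤ t, p ω

/-- the final theorem -/
def S_FIN : Prop := ∀ (N t c s r d : ℕ) (Γ : Fin c → Type) [∀ σ, AddCommGroup (Γ σ)]
  [∀ σ, Fintype (Γ σ)] (Δ : Type) (δ : ℝ) (Ω : Type) [Fintype Ω] (p : Ω → ℝ)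
  (D : Ω → SketchDS N c d Γ Δ), 1 ≤ t → 1 ≤ r → 0 < δ → δ ≤ 1 / 2 →
  (∀ σ, Fintype.card (Γ σ) ≤ 2 ^ r) → (∀ ω, (D ω).space ≤ s) → SketchSolves p D t δ →
  δ ^ 10 * (N : ℝ) ^ 2 ≤ 10 ^ 39 * (((r : ℝ) + d) * t) ^ 4 * (r * s + 1)

def S_SIM : Prop := S_MND → S_FIN

end Pool.Agent.J4H45.GT
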