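import Mathlib

/-!
# Tables over finite abelian groups for 3SUM-Indexing: statements, part 0 (helper45)

Project GT (MP_e016b3_lc). This file imports only Mathlib.
-/

set_option autoImplicit false

namespace Pool.Agent.J4H45.GT

/-- A query algorithm for a memory whose cell `σ` contains an element of `Γ σ`. -/
inductive GTree {κ : Type} (Γ : κ → Type) : Type
  | answer (o : Bool) : GTree Γ
  | probe (σ : κ) (next : Γ σ → GTree Γ) : GTree Γ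

/-- the answer if the memory is `b` -/
def GTree.out {κ : Type} {Γ : κ → Type} (b : ∀ σ, Γ σ) : GTree Γ → Bool
  | GTree.answer o => o
  | GTree.probe σ next => (next (b σ)).out b

/-- the sum of the weights `ℓ` of the cells read if the memory is `b` -/
def GTree.cost {κ : Type} {Γ : κ → Type} (ℓ : κ → ℕ) (b : ∀ σ, Γ σ) : GTree Γ → ℕ
  | GTree.answer _ => 0
  | GTree.probe σ next => (next (b σ)).cost ℓ b + ℓ σ

/-- no path has a weight greater than `h` -/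
def GTree.Within {κ : Type} {Γ : κ → Type} (ℓ : κ → ℕ) : GTree Γ → ℕ → Prop
  | GTree.answer _, _ => True
  | GTree.probe σ next, h => ℓ σ ≤ h ∧ ∀ v, (next v).Within ℓ (h - ℓ σ)

/-! ### (TREE) a tree does not distinguish what no product of characters distinguishes -/

def S_TREE : Prop := ∀ (κ : Type) [Fintype κ] (Γ : κ → Type) [∀ σ, AddCommGroup (Γ σ)]
  [∀ σ, Fintype (Γ σ)] (ℓ : κ → ℕ) (Ω : Type) [Fintype Ω] (w : Ω → ℂ) (z : Ω → ∀ σ, Γ σ)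
  (ε : ℝ) (h : ℕ) (T : GTree Γ) (o : Bool),
  (∀ σ, Fintype.card (Γ σ) ≤ 2 ^ ℓ σ) → T.Within ℓ h →
  (∀ θ : ∀ σ, AddChar (Γ σ) ℂ, ‖∑ ω, w ω * ∏ σ, θ σ (z ω σ)‖ ≤ ε) →
  ‖∑ ω, w ω * (if T.out (z ω) = o then 1 else 0)‖ ≤ 2 ^ h * ε

/-! ### (BRN) `1 - z` near `z = 1` is a short combination of powers -/

def S_BRN : Prop := ∀ (N : ℕ) (ε : ℝ), 1 ≤ N → 0 < ε → ε ≤ 1 / 2 →
  ∃ a : Fin N → ℂ, ∑ j, ‖a j‖ ≤ 7 * ε ∧
    ∀ z : ℂ, z ^ N = 1 → ‖1 - z‖ ≤ ε → ∑ j, a j * z ^ (j : ℕ) = 1 - z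

/-! ### (COL) one column -/

/-- `z` if the bit is true -/
def tw (z : ℂ) (b : Bool) : ℂ := if b = true then z else 1

/-- the factor of a column -/
noncomputable def YY {k : ℕ} {O : Type} [Fintype O] [DecidableEq O] (ζ : Fin k → ℂ)
    (o : Fin k → O) (x x' : Fin k → Bool) : ℝ :=
  ∏ a : O, ‖1 + ∏ i ∈ Finset.univ.filter (fun i => o i = a),
    (tw (ζ i) (x i) * (starRingEnd ℂ) (tw (ζ i) (x' i)))‖ / 2

def S_COL : Prop := ∀ (k : ℕ) (O : Type) [Fintype O] [DecidableEq O] (ζ : Fin k → ℂ)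
  (o : Fin k → O), (∀ i, ‖ζ i‖ = 1) →
  (∀ x x', 0 ≤ YY ζ o x x' ∧ YY ζ o x x' ≤ 1) ∧
  min 1 (∑ i, ‖1 - ζ i‖ ^ 2) / 32 * (2 ^ k * 2 ^ k) ≤
    ∑ x : Fin k → Bool, ∑ x' : Fin k → Bool, (1 - YY ζ o x x') ∧
  ∑ x : Fin k → Bool, ∑ x' : Fin k → Bool, (1 - YY ζ o x x') ^ 2 ≤
    (min 1 (∑ i, ‖1 - ζ i‖ ^ 2)) ^ 2 * (2 ^ k * 2 ^ k)

/-! ### (CN0), (CNT) counting -/

def S_CN0 : Prop := ∀ (Θ : Type) [CommGroup Θ] [Fintype Θ] (P : Type) [DecidableEq P]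
  (ζ : P → Θ → ℂ) (B : Finset P) (θ : P → Θ) (ε : ℝ),
  (∀ p x, ‖ζ p x‖ = 1) → (∀ p x y, ζ p (x * y) = ζ p x * ζ p y) → 0 < ε →
  (∀ p ∈ B, ε < ‖1 - ζ p (θ p)‖) →
  (∑ p ∈ B, ∑ p' ∈ B.erase p, ‖1 - ζ p' (θ p)‖ ^ 2 ≤ ε ^ 2 / 16 * B.card) →
  (B.card : ℝ) ≤ 4 * Real.log (Fintype.card Θ)

def S_CNT : Prop := ∀ (Θ : Type) [CommGroup Θ] [Fintype Θ] (P : Type) [DecidableEq P]
  (ζ : P → Θ → ℂ) (B : Finset P) (θ : P → Θ) (ε E : ℝ),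
  (∀ p x, ‖ζ p x‖ = 1) → (∀ p x y, ζ p (x * y) = ζ p x * ζ p y) → 0 < ε → ε ≤ 1 → 1 ≤ E →
  (∀ p ∈ B, ε < ‖1 - ζ p (θ p)‖) →
  (∀ p ∈ B, ∑ p' ∈ B.erase p, ‖1 - ζ p' (θ p)‖ ^ 2 ≤ E) →
  (B.card : ℝ) ≤ 1 + 64 * E * Real.log (Fintype.card Θ) / ε ^ 2

/-! ### (LGE) a light combination is small outside one pair -/

/-- the mass of the columns except `j0` -/
noncomputable def massC {k : ℕ} (e : Fin k → Fin k → ℝ) (j0 : Fin k) : ℝ :=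
  ∑ j ∈ Finset.univ.erase j0, min 1 (∑ i, e i j)

/-- the mass of the rows except `i0` -/
noncomputable def massR {k : ℕ} (e : Fin k → Fin k → ℝ) (i0 : Fin k) : ℝ :=
  ∑ i ∈ Finset.univ.erase i0, min 1 (∑ j, e i j)

def S_LGE : Prop := ∀ (k : ℕ) (i0 j0 : Fin k) (e : Fin k → Fin k → ℝ) (K : ℝ),
  (∀ i j, 0 ≤ e i j ∧ e i j ≤ 4) → 0 ≤ K → massC e j0 ≤ K → massR e i0 ≤ K →
  ∑ p ∈ Finset.univ.erase (i0, j0), e p.1 p.2 ≤ 6 * (K + 1) ^ 2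

end Pool.Agent.J4H45.GT
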