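import Pool.Agent.J4H45.GT.Stm
import Pool.Agent.N631.SX.EMain

/-!
# Tables over finite abelian groups for emptiness queries: statements (helper45)

Project GE (MP_f326ae_lc).
-/

set_option autoImplicit false

namespace Pool.Agent.J4H45.GT

open Pool.Agent.W959 Pool.Agent.W959.Ent Pool.Agent.TH457.EntD Pool.Agent.N631.LX
open Pool.Agent.N631.SX

/-- A data structure for a family of `2 k` subsets of a universe with `u` elements, the sets `X i` of
the first half and the sets `Y j` of the second half. The cells are the elements of `κ`, and the cell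
`σ` contains an element of the abelian group `Γ σ`: the sum of the elements `a σ p` over all queries
`p = (i, j)` in `P σ` for which `X i` and `Y j` intersect, plus an arbitrary function `f σ` of the
first half, plus an arbitrary function `g σ` of the second half. The queries are adaptive. -/
structure EGroupDS (k u : ℕ) {κ : Type} (Γ : κ → Type) where
  P : κ → Finset (Fin k × Fin k)
  a : ∀ σ, Fin k × Fin k → Γ σ
  f : ∀ σ, (Fin k → Finset (Fin u)) → Γ σ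
  g : ∀ σ, (Fin k → Finset (Fin u)) → Γ σ
  query : Fin k → Fin k → GTree Γ

open Classical in
/-- the contents of the cell `σ` -/
noncomputable def EGroupDS.cell {k u : ℕ} {κ : Type} {Γ : κ → Type} [∀ σ, AddCommGroup (Γ σ)]
    (D : EGroupDS k u Γ) (X Y : Fin k → Finset (Fin u)) (σ : κ) : Γ σ :=
  (∑ p ∈ D.P σ with (X p.1 ∩ Y p.2).Nonempty, D.a σ p) + D.f σ X + D.g σ Y

open Classical in
/-- the total number of bits of the cells in which answers enter -/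
noncomputable def EGroupDS.space {k u : ℕ} {κ : Type} [Fintype κ] {Γ : κ → Type}
    (D : EGroupDS k u Γ) (ℓ : κ → ℕ) : ℕ :=
  ∑ σ with (D.P σ).Nonempty, ℓ σ

open Classical in
/-- For all families of total size at most `N` and all `i`, `j`, with probability at least
`1 / 2 + δ` the random data structure `D` (probabilities `p`) decides whether `X i` and `Y j`
intersect, correctly and reading at most `h` bits. -/
def EGroupSolves {k u : ℕ} {κ : Type} {Γ : κ → Type} [∀ σ, AddCommGroup (Γ σ)] (N : ℕ)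
    {Ω : Type} [Fintype Ω] (p : Ω → ℝ) (D : Ω → EGroupDS k u Γ) (ℓ : κ → ℕ) (h : ℕ)
    (δ : ℝ) : Prop :=
  (∀ ω, 0 ≤ p ω) ∧ ∑ ω, p ω = 1 ∧
    ∀ X Y : Fin k → Finset (Fin u), ∑ i, (X i).card + ∑ j, (Y j).card ≤ N → ∀ i j : Fin k,
      1 / 2 + δ ≤ ∑ ω with
        (((D ω).query i j).out ((D ω).cell X Y) = true ↔ (X i ∩ Y j).Nonempty) ∧
        ((D ω).query i j).cost ℓ ((D ω).cell X Y) ≤ h, p ω

/-! ### (ESE) the error of one data structure, summed over all pairs; uses (PAIR), (BAD);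
a copy of `Pool.Agent.J4H45.GT.t_SER` with `Pool.Agent.N631.SX.famX`, `famY`, `fam_meets` -/

def S_ESE : Prop := ∀ (k q n m h S : ℕ) (κ : Type) [Fintype κ] (Γ : κ → Type)
  [∀ σ, AddCommGroup (Γ σ)] [∀ σ, Fintype (Γ σ)] (ℓ : κ → ℕ) (D : EGroupDS k (vv n q) Γ),
  1 ≤ h → m = 1400 * h → n = m ^ 2 → q = 100000 * h → (∀ σ, Fintype.card (Γ σ) ≤ 2 ^ ℓ σ) →
  D.space ℓ ≤ S →
  ((k : ℝ) ^ 2 - (1 + 10 ^ 18 * (h : ℝ) ^ 2 * S)) * (1 / 80) ≤ ∑ p : Fin k × Fin k,
    EE (q := q) (1 / (m : ℝ)) (fun x y => ind (¬ (((D.query p.1 p.2).cut ℓ h).out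
      (D.cell (famX p.1 x) (famY p.2 y)) = true ↔ ¬ conj x.1 y.1 = zero n)))

/-! ### (EMN) the main theorem for the advantage 49 / 100; uses (ESE); a copy of `t_MNG` and of
`Pool.Agent.N631.SX.e_main`, `k = N / (4 (q + 2))` -/

def S_EMN : Prop := ∀ (N h : ℕ), 1 ≤ h → ∃ k u : ℕ, 400 * h * k ≤ N ∧
  u ≤ 2200000 * h ^ 2 ∧ ∀ (S : ℕ) (κ : Type) [Fintype κ] (Γ : κ → Type)
  [∀ σ, AddCommGroup (Γ σ)] [∀ σ, Fintype (Γ σ)] (ℓ : κ → ℕ) (Ω : Type) [Fintype Ω]
  (p : Ω → ℝ) (D : Ω → EGroupDS k u Γ), (∀ σ, Fintype.card (Γ σ) ≤ 2 ^ ℓ σ) →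
  (∀ ω, (D ω).space ℓ ≤ S) → EGroupSolves N p D ℓ h (49 / 100) →
  (N : ℝ) ^ 2 ≤ 10 ^ 31 * (h : ℝ) ^ 4 * ((S : ℝ) + 1)

/-! ### (EAM) amplification of the advantage; a copy of `Pool.Agent.J4H18.GT.t_AMG` -/

def S_EAM : Prop := ∀ (N k u h r S : ℕ) (κ : Type) [Fintype κ] (Γ : κ → Type)
  [∀ σ, AddCommGroup (Γ σ)] (ℓ : κ → ℕ) (Ω : Type) [Fintype Ω]
  (p : Ω → ℝ) (D : Ω → EGroupDS k u Γ) (δ : ℝ), 0 < δ → 25 / δ ^ 2 ≤ (r : ℝ) →
  (∀ ω, (D ω).space ℓ ≤ S) → EGroupSolves N p D ℓ h δ →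
  ∃ D' : (Fin r → Ω) → EGroupDS k u (fun c : Fin r × κ => Γ c.2),
    (∀ ω, (D' ω).space (fun c => ℓ c.2) ≤ r * S) ∧
    EGroupSolves N (fun ω : Fin r → Ω => ∏ l, p (ω l)) D' (fun c => ℓ c.2) (r * h) (49 / 100)

/-! ### (EMD) the main theorem for any advantage; uses (EMN), (EAM); as `t_MND` -/

def S_EMD : Prop := ∀ (N h : ℕ) (δ : ℝ), 1 ≤ h → 0 < δ → δ ≤ 1 / 2 → ∃ k u : ℕ,
  400 * h * k ≤ N ∧ δ ^ 4 * (u : ℝ) ≤ 10 ^ 10 * (h : ℝ) ^ 2 ∧ ∀ (S : ℕ) (κ : Type) [Fintype κ]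
  (Γ : κ → Type) [∀ σ, AddCommGroup (Γ σ)] [∀ σ, Fintype (Γ σ)] (ℓ : κ → ℕ) (Ω : Type)
  [Fintype Ω] (p : Ω → ℝ) (D : Ω → EGroupDS k u Γ), (∀ σ, Fintype.card (Γ σ) ≤ 2 ^ ℓ σ) →
  (∀ ω, (D ω).space ℓ ≤ S) → EGroupSolves N p D ℓ h δ →
  δ ^ 10 * (N : ℝ) ^ 2 ≤ 10 ^ 39 * (h : ℝ) ^ 4 * ((S : ℝ) + 1)

/-! ### (ESM) cells with arbitrary contents made from a group element and from a protocol; a copy
of `Pool.Agent.J4H4.GT.t_SIM` -/

/-- A data structure for a family of `2 k` subsets of a universe with `u` elements, the sets `X i` of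
the first half and the sets `Y j` of the second half, with `c` cells. The contents of the cell `σ`
are an arbitrary function `make σ` of an element of the finite abelian group `Γ σ` and of the `d`
bits of a protocol of two players who know one half of the family each. The group element is the sum
of the elements `a σ p` over all queries `p = (i, j)` in `P σ` for which `X i` and `Y j` intersect,
plus an arbitrary function `f σ` of the first half, plus an arbitrary function `g σ` of the second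
half. The queries are adaptive. -/
structure ESketchDS (k u c d : ℕ) (Γ : Fin c → Type) (Δ : Type) where
  P : Fin c → Finset (Fin k × Fin k)
  a : ∀ σ, Fin k × Fin k → Γ σ
  f : ∀ σ, (Fin k → Finset (Fin u)) → Γ σ
  g : ∀ σ, (Fin k → Finset (Fin u)) → Γ σ
  talk : Fin c → Talk (Fin k → Finset (Fin u)) (Fin k → Finset (Fin u))
  make : ∀ σ, Γ σ → List Bool → Δ
  query : Fin k → Fin k → CTree c Δ

open Classical in
/-- the contents of the cell `σ` -/
noncomputable def ESketchDS.cell {k u c d : ℕ} {Γ : Fin c → Type} [∀ σ, AddCommGroup (Γ σ)]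
    {Δ : Type} (D : ESketchDS k u c d Γ Δ) (X Y : Fin k → Finset (Fin u)) (σ : Fin c) : Δ :=
  D.make σ ((∑ p ∈ D.P σ with (X p.1 ∩ Y p.2).Nonempty, D.a σ p) + D.f σ X + D.g σ Y)
    ((D.talk σ).run X Y d)

open Classical in
/-- the number of cells in which answers enter -/
noncomputable def ESketchDS.space {k u c d : ℕ} {Γ : Fin c → Type} {Δ : Type}
    (D : ESketchDS k u c d Γ Δ) : ℕ :=
  (Finset.univ.filter fun σ : Fin c => (D.P σ).Nonempty).card

open Classical in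
/-- For all families of total size at most `N` and all `i`, `j`, with probability at least
`1 / 2 + δ` the random data structure `D` (probabilities `p`) decides whether `X i` and `Y j`
intersect, correctly and reading at most `t` cells. -/
def ESketchSolves {k u c d : ℕ} {Γ : Fin c → Type} [∀ σ, AddCommGroup (Γ σ)] {Δ : Type}
    (N : ℕ) {Ω : Type} [Fintype Ω] (p : Ω → ℝ) (D : Ω → ESketchDS k u c d Γ Δ) (t : ℕ)
    (δ : ℝ) : Prop :=
  (∀ ω, 0 ≤ p ω) ∧ ∑ ω, p ω = 1 ∧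
    ∀ X Y : Fin k → Finset (Fin u), ∑ i, (X i).card + ∑ j, (Y j).card ≤ N → ∀ i j : Fin k,
      1 / 2 + δ ≤ ∑ ω with
        (((D ω).query i j).out ((D ω).cell X Y) = true ↔ (X i ∩ Y j).Nonempty) ∧
        ((D ω).query i j).probes ((D ω).cell X Y) ≤ t, p ω

/-- the final theorem -/
def S_EFI : Prop := ∀ (N r d t : ℕ) (δ : ℝ), 1 ≤ r → 1 ≤ t → 0 < δ → δ ≤ 1 / 2 → ∃ k u : ℕ,
  400 * ((r + d) * t) * k ≤ N ∧ δ ^ 4 * (u : ℝ) ≤ 10 ^ 10 * (((r : ℝ) + d) * t) ^ 2 ∧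
  ∀ (c s : ℕ) (Γ : Fin c → Type) [∀ σ, AddCommGroup (Γ σ)] [∀ σ, Fintype (Γ σ)] (Δ : Type)
  (Ω : Type) [Fintype Ω] (p : Ω → ℝ) (D : Ω → ESketchDS k u c d Γ Δ),
  (∀ σ, Fintype.card (Γ σ) ≤ 2 ^ r) → (∀ ω, (D ω).space ≤ s) → ESketchSolves N p D t δ →
  δ ^ 10 * (N : ℝ) ^ 2 ≤ 10 ^ 39 * (((r : ℝ) + d) * t) ^ 4 * (r * s + 1)

def S_ESM : Prop := S_EMD → S_EFI

end Pool.Agent.J4H45.GT
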